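import Mathlib

/-!
# Topologies generated by families of maps into discrete sets
-/

set_option autoImplicit false

open Set Filter Topology

namespace Pool.Agent.Q91.FamTop

variable {G J : Type*} {D : J → Type*}

/-- The coarsest topology for which all maps `c j` are locally constant. -/
@[reducible] def famTop (c : (j : J) → G → D j) : TopologicalSpace G where
  IsOpen U := ∀ g ∈ U, ∃ S : Finset J, ∀ h, (∀ s ∈ S, c s h = c s g) → h ∈ U
  isOpen_univ := fun _ _ => ⟨∅, fun _ _ => mem_univ _⟩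
  isOpen_inter := by
    classical
    intro U V hU hV g hg
    obtain ⟨S, hS⟩ := hU g hg.1
    obtain ⟨T, hT⟩ := hV g hg.2
    exact ⟨S ∪ T, fun h hh => ⟨hS h fun s hs => hh s (Finset.mem_union_left _ hs),
      hT h fun s hs => hh s (Finset.mem_union_right _ hs)⟩⟩
  isOpen_sUnion := by
    intro 𝒰 h𝒰 g hg
    obtain ⟨U, hU, hgU⟩ := hg
    obtain ⟨S, hS⟩ := h𝒰 U hU g hgU
    exact ⟨S, fun h hh => ⟨U, hU, hS h hh⟩⟩

variable (c : (j : J) → G → D j)

theorem isOpen_iff {U : Set G} : IsOpen[famTop c] U ↔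
    ∀ g ∈ U, ∃ S : Finset J, ∀ h, (∀ s ∈ S, c s h = c s g) → h ∈ U := Iff.rfl

theorem isOpen_basic (S : Finset J) (g : G) : IsOpen[famTop c] {h | ∀ s ∈ S, c s h = c s g} := by
  intro h hh
  exact ⟨S, fun k hk s hs => (hk s hs).trans (hh s hs)⟩

theorem isOpen_fiber (j : J) (P : D j → Prop) : IsOpen[famTop c] {h | P (c j h)} := by
  classical
  intro h hh
  refine ⟨{j}, fun k hk => ?_⟩
  have := hk j (Finset.mem_singleton_self j)
  show P (c j k)
  rw [this]
  exact hh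

theorem isClosed_fiber (j : J) (P : D j → Prop) : IsClosed[famTop c] {h | P (c j h)} := by
  rw [← @isOpen_compl_iff _ _ (famTop c)]
  exact isOpen_fiber c j (fun x => ¬ P x)

theorem mem_nhds_iff' {U : Set G} {g : G} : U ∈ @nhds G (famTop c) g ↔
    ∃ S : Finset J, ∀ h, (∀ s ∈ S, c s h = c s g) → h ∈ U := by
  let _ : TopologicalSpace G := famTop c
  rw [mem_nhds_iff]
  constructor
  · rintro ⟨V, hVU, hV, hg⟩
    obtain ⟨S, hS⟩ := hV g hg
    exact ⟨S, fun h hh => hVU (hS h hh)⟩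
  · rintro ⟨S, hS⟩
    exact ⟨_, fun h hh => hS h hh, isOpen_basic c S g, fun s _ => rfl⟩

theorem continuous_to {Y : Type*} [TopologicalSpace Y] (f : Y → G)
    (h : ∀ (j : J) (y : Y), {z | c j (f z) = c j (f y)} ∈ 𝓝 y) : @Continuous Y G _ (famTop c) f := by
  refine @Continuous.mk Y G _ (famTop c) f fun U hU => ?_
  rw [isOpen_iff_mem_nhds]
  intro y hy
  obtain ⟨S, hS⟩ := hU (f y) hy
  have h1 : ⋂ s ∈ S, {z | c s (f z) = c s (f y)} ∈ 𝓝 y :=
    (Filter.biInter_finset_mem S).mpr fun s _ => h s y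
  refine mem_of_superset h1 fun z hz => hS (f z) fun s hs => ?_
  exact mem_iInter₂.mp hz s hs

theorem t2 (hsep : ∀ g h : G, (∀ j, c j g = c j h) → g = h) : @T2Space G (famTop c) := by
  let _ : TopologicalSpace G := famTop c
  refine ⟨fun g h hgh => ?_⟩
  have : ∃ j, c j g ≠ c j h := by
    by_contra hcon
    push Not at hcon
    exact hgh (hsep g h hcon)
  obtain ⟨j, hj⟩ := this
  exact ⟨_, _, isOpen_fiber c j (fun x => x = c j g), isOpen_fiber c j (fun x => x = c j h), rfl,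
    rfl, Set.disjoint_left.mpr fun x hx hx' => hj (hx.symm.trans hx')⟩

variable [Group G]

theorem isTopologicalGroup
    (hmul : ∀ (j : J) (g h : G), ∃ S : Finset J, ∀ g' h' : G, (∀ s ∈ S, c s g' = c s g) →
      (∀ s ∈ S, c s h' = c s h) → c j (g' * h') = c j (g * h))
    (hinv : ∀ (j : J) (g : G), ∃ S : Finset J, ∀ g' : G, (∀ s ∈ S, c s g' = c s g) →
      c j g'⁻¹ = c j g⁻¹) : @IsTopologicalGroup G (famTop c) _ := by
  let _ : TopologicalSpace G := famTop c
  refine @IsTopologicalGroup.mk G (famTop c) _ (@ContinuousMul.mk G (famTop c) _ ?_)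
    (@ContinuousInv.mk G (famTop c) _ ?_)
  · refine continuous_to c _ fun j y => ?_
    obtain ⟨g, h⟩ := y
    obtain ⟨S, hS⟩ := hmul j g h
    rw [nhds_prod_eq, Filter.mem_prod_iff]
    exact ⟨{g' | ∀ s ∈ S, c s g' = c s g}, (mem_nhds_iff' c).mpr ⟨S, fun _ h => h⟩,
      {g' | ∀ s ∈ S, c s g' = c s h}, (mem_nhds_iff' c).mpr ⟨S, fun _ h => h⟩,
      fun z hz => hS z.1 z.2 hz.1 hz.2⟩
  · refine continuous_to c _ fun j g => ?_
    obtain ⟨S, hS⟩ := hinv j g
    exact (mem_nhds_iff' c).mpr ⟨S, hS⟩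

end Pool.Agent.Q91.FamTop
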