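import Mathlib

/-!
# The sign of a finitary permutation
-/

set_option autoImplicit false

open Set Equiv Equiv.Perm

namespace Pool.Agent.Q91.FinSign

/-- the finitary permutations of `ℕ` -/
def FSym : Subgroup (Perm ℕ) where
  carrier := {h | {x | h x ≠ x}.Finite}
  one_mem' := by simp
  mul_mem' := by
    intro g h hg hh
    refine (hg.union hh).subset fun x hx => ?_
    by_contra hcon
    simp only [mem_union, Set.mem_ofPred_eq, not_or, not_not] at hcon
    apply hx
    rw [Perm.mul_apply, hcon.2, hcon.1]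
  inv_mem' := by
    intro g hg
    refine hg.subset fun x hx hcon => hx ?_
    rw [Perm.inv_eq_iff_eq]
    exact hcon.symm

/-- `F` contains all points moved by `h` -/
def Sup (F : Finset ℕ) (h : Perm ℕ) : Prop := ∀ x, h x ≠ x → x ∈ F

theorem Sup.mem_iff {F : Finset ℕ} {h : Perm ℕ} (H : Sup F h) (x : ℕ) : h x ∈ F ↔ x ∈ F := by
  by_cases hx : h x = x
  · rw [hx]
  · refine ⟨fun _ => H x hx, fun _ => H (h x) fun e => hx (h.injective e)⟩

/-- the restriction -/
def res (F : Finset ℕ) (h : Perm ℕ) (H : Sup F h) : Perm F :=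
  h.subtypePerm (p := fun x => x ∈ F) (fun x => H.mem_iff x)

theorem res_apply (F : Finset ℕ) (h : Perm ℕ) (H : Sup F h) (x : F) : (res F h H x : ℕ) = h x := rfl

theorem sign_res (F F' : Finset ℕ) (h : Perm ℕ) (H : Sup F h) (H' : Sup F' h) :
    sign (res F h H) = sign (res F' h H') := by
  have key : ∀ x : F, res F h H x ≠ x → (x : ℕ) ∈ F' := fun x hx =>
    H' x fun e => hx (Subtype.ext e)
  refine sign_bij (f := res F h H) (g := res F' h H') (fun x hx => (⟨x, key x hx⟩ : F')) ?_ ?_ ?_
  · intro x hx hx'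
    exact Subtype.ext rfl
  · intro x y hx hy hxy
    exact Subtype.ext (Subtype.mk.inj hxy)
  · intro y hy
    have h1 : h y ≠ y := fun e => hy (Subtype.ext e)
    exact ⟨⟨y, H y h1⟩, fun e => h1 (congrArg Subtype.val e), rfl⟩

/-- a finite set containing the moved points -/
noncomputable def sp (h : FSym) : Finset ℕ := h.2.toFinset

theorem sup_sp (h : FSym) : Sup (sp h) h := fun _ hx => h.2.mem_toFinset.mpr hx

/-- the sign -/
noncomputable def fsgn : FSym →* ℤˣ where
  toFun h := sign (res (sp h) h (sup_sp h))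
  map_one' := by
    have : res (sp 1) ((1 : FSym) : Perm ℕ) (sup_sp 1) = 1 := by
      ext x
      rfl
    rw [this, Perm.sign_one]
  map_mul' := by
    classical
    intro g h
    have Hg : Sup (sp g ∪ sp h) g := fun x hx => Finset.mem_union_left _ (sup_sp g x hx)
    have Hh : Sup (sp g ∪ sp h) h := fun x hx => Finset.mem_union_right _ (sup_sp h x hx)
    have Hgh : Sup (sp g ∪ sp h) ((g * h : FSym) : Perm ℕ) := by
      intro x hx
      by_contra hcon
      apply hx
      have h1 : (h : Perm ℕ) x = x := by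
        by_contra hne
        exact hcon (Hh x hne)
      have h2 : (g : Perm ℕ) x = x := by
        by_contra hne
        exact hcon (Hg x hne)
      rw [Subgroup.coe_mul, Perm.mul_apply, h1, h2]
    rw [sign_res _ (sp g ∪ sp h) _ (sup_sp (g * h)) Hgh, sign_res _ (sp g ∪ sp h) _ (sup_sp g) Hg,
      sign_res _ (sp g ∪ sp h) _ (sup_sp h) Hh, ← Perm.sign_mul]
    congr 1

theorem fsgn_eq (h : FSym) (F : Finset ℕ) (H : Sup F h) : fsgn h = sign (res F h H) :=
  sign_res _ _ _ _ _

/-- transpositions -/
def tp (i j : ℕ) : FSym := ⟨swap i j, by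
  refine (Set.toFinite {i, j}).subset fun x hx => ?_
  by_contra hcon
  simp only [mem_insert_iff, mem_singleton_iff, not_or] at hcon
  exact hx (swap_apply_of_ne_of_ne hcon.1 hcon.2)⟩

theorem tp_coe (i j : ℕ) : ((tp i j : FSym) : Perm ℕ) = swap i j := rfl

theorem fsgn_tp {i j : ℕ} (hij : i ≠ j) : fsgn (tp i j) = -1 := by
  have H : Sup {i, j} (tp i j : Perm ℕ) := by
    intro x hx
    by_contra hcon
    simp only [Finset.mem_insert, Finset.mem_singleton, not_or] at hcon
    exact hx (swap_apply_of_ne_of_ne hcon.1 hcon.2)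
  rw [fsgn_eq _ _ H]
  have : res {i, j} (tp i j : Perm ℕ) H = swap ⟨i, by simp⟩ ⟨j, by simp⟩ := by
    ext x
    rw [res_apply, tp_coe]
    by_cases h1 : x = ⟨i, by simp⟩
    · subst h1
      simp
    · by_cases h2 : x = ⟨j, by simp⟩
      · subst h2
        simp
      · rw [swap_apply_of_ne_of_ne h1 h2, swap_apply_of_ne_of_ne (fun e => h1 (Subtype.ext e))
          (fun e => h2 (Subtype.ext e))]
  rw [this, sign_swap]
  intro e
  exact hij (congrArg Subtype.val e)

end Pool.Agent.Q91.FinSign
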