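import Mathlib

/-!
# Homogeneity of the rational Urysohn space
-/

set_option autoImplicit false

open Set

namespace Pool.Agent.Q91.QU

/-- The characterisation of the rational Urysohn space. -/
structure IsQU (X : Type) [MetricSpace X] : Prop where
  cnt : Countable X
  rat : ∀ x y : X, ∃ q : ℚ, dist x y = (q : ℝ)
  ext : ∀ (A : Finset X) (f : X → ℚ), (∀ a ∈ A, 0 < f a) →
        (∀ a ∈ A, ∀ b ∈ A, |(f a : ℝ) - (f b : ℝ)| ≤ dist a b ∧ dist a b ≤ (f a : ℝ) + (f b : ℝ)) →
        ∃ x : X, ∀ a ∈ A, dist x a = (f a : ℝ)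

variable {X : Type} [MetricSpace X]

theorem IsQU.ext' (hX : IsQU X) {ι : Type} [Fintype ι] (p : ι → X) (f : ι → ℝ)
    (hf : ∀ i, ∃ q : ℚ, f i = q) (hl : ∀ i j, f i ≤ f j + dist (p i) (p j))
    (hs : ∀ i j, dist (p i) (p j) ≤ f i + f j) : ∃ x : X, ∀ i, dist x (p i) = f i := by
  classical
  by_cases h0 : ∃ i, f i = 0
  · obtain ⟨i, hi⟩ := h0
    refine ⟨p i, fun j => le_antisymm ?_ ?_⟩
    · have := hs i j
      rwa [hi, zero_add] at this
    · have := hl j i
      rwa [hi, zero_add, dist_comm] at this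
  · have hpos : ∀ i, 0 < f i := by
      intro i
      have h1 := hs i i
      rw [dist_self] at h1
      exact lt_of_le_of_ne (by linarith) (fun h => h0 ⟨i, h.symm⟩)
    choose q hq using hf
    have hwell : ∀ i j, p i = p j → q i = q j := by
      intro i j h
      have h1 := hl i j
      have h2 := hl j i
      rw [h, dist_self] at h1 h2
      have : f i = f j := by linarith
      rw [hq, hq] at this
      exact_mod_cast this
    let g : X → ℚ := fun x => if h : ∃ i, p i = x then q h.choose else 0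
    have hg : ∀ i, g (p i) = q i := by
      intro i
      have h : ∃ j, p j = p i := ⟨i, rfl⟩
      simp only [g, dif_pos h]
      exact hwell _ _ h.choose_spec
    obtain ⟨x, hx⟩ := hX.ext (Finset.univ.image p) g (by
      intro a ha
      simp only [Finset.mem_image, Finset.mem_univ, true_and] at ha
      obtain ⟨i, rfl⟩ := ha
      rw [hg]
      have := hpos i
      rw [hq] at this
      exact_mod_cast this) (by
      intro a ha b hb
      simp only [Finset.mem_image, Finset.mem_univ, true_and] at ha hb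
      obtain ⟨i, rfl⟩ := ha
      obtain ⟨j, rfl⟩ := hb
      rw [hg, hg, ← hq, ← hq]
      refine ⟨?_, hs i j⟩
      rw [abs_le]
      have h1 := hl i j
      have h2 := hl j i
      rw [dist_comm] at h2
      constructor <;> linarith)
    refine ⟨x, fun i => ?_⟩
    rw [hx (p i) (Finset.mem_image_of_mem _ (Finset.mem_univ _)), hg, hq]

theorem IsQU.rat_dist (hX : IsQU X) (x y : X) : ∃ q : ℚ, dist x y = q := hX.rat x y

/-- finite partial isometries -/
abbrev PI (X : Type) [MetricSpace X] : Type :=
  {s : Finset (X × X) // ∀ a ∈ s, ∀ b ∈ s, dist a.1 b.1 = dist a.2 b.2}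

theorem IsQU.extend (hX : IsQU X) (s : PI X) (x : X) : ∃ t : PI X, s ≤ t ∧ ∃ y, (x, y) ∈ t.1 := by
  classical
  obtain ⟨y, hy⟩ := hX.ext' (ι := s.1) (fun a => a.1.2) (fun a => dist x a.1.1)
    (fun a => hX.rat _ _) (by
      rintro ⟨a, ha⟩ ⟨b, hb⟩
      show dist x a.1 ≤ dist x b.1 + dist a.2 b.2
      rw [← s.2 a ha b hb, dist_comm a.1 b.1]
      exact dist_triangle _ _ _) (by
      rintro ⟨a, ha⟩ ⟨b, hb⟩
      show dist a.2 b.2 ≤ dist x a.1 + dist x b.1
      rw [← s.2 a ha b hb, dist_comm x a.1]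
      exact dist_triangle _ _ _)
  refine ⟨⟨insert (x, y) s.1, ?_⟩, Finset.subset_insert _ _, y, Finset.mem_insert_self _ _⟩
  have key : ∀ a ∈ s.1, dist x a.1 = dist y a.2 := fun a ha => (hy ⟨a, ha⟩).symm
  intro a ha b hb
  rw [Finset.mem_insert] at ha hb
  rcases ha with rfl | ha <;> rcases hb with rfl | hb
  · simp
  · exact key b hb
  · rw [dist_comm, key a ha, dist_comm]
  · exact s.2 a ha b hb

/-- the inverse of a partial isometry -/
def PI.symm (s : PI X) : PI X :=
  ⟨s.1.map (Equiv.prodComm X X).toEmbedding, by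
    intro a ha b hb
    rw [Finset.mem_map_equiv] at ha hb
    exact (s.2 _ ha _ hb).symm⟩

theorem PI.mem_symm (s : PI X) (x y : X) : (x, y) ∈ s.symm.1 ↔ (y, x) ∈ s.1 := by
  unfold PI.symm
  rw [Finset.mem_map_equiv]
  rfl

theorem IsQU.extend' (hX : IsQU X) (s : PI X) (y : X) : ∃ t : PI X, s ≤ t ∧ ∃ x, (x, y) ∈ t.1 := by
  obtain ⟨t, ht, x, hx⟩ := hX.extend s.symm y
  refine ⟨t.symm, ?_, x, (t.mem_symm x y).mpr hx⟩
  rintro ⟨a, b⟩ hab
  exact (t.mem_symm a b).mpr (ht ((s.mem_symm b a).mpr hab))

/-- Homogeneity. -/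
theorem IsQU.hom (hX : IsQU X) {ι : Type} [Fintype ι] (p q : ι → X)
    (h : ∀ i j, dist (p i) (p j) = dist (q i) (q j)) : ∃ g : X ≃ᵢ X, ∀ i, g (p i) = q i := by
  classical
  haveI := hX.cnt
  haveI : Encodable (X ⊕ X) := Encodable.ofCountable _
  let s0 : PI X := ⟨Finset.univ.image (fun i => (p i, q i)), by
    intro a ha b hb
    simp only [Finset.mem_image, Finset.mem_univ, true_and] at ha hb
    obtain ⟨i, rfl⟩ := ha
    obtain ⟨j, rfl⟩ := hb
    exact h i j⟩
  let D : X ⊕ X → Order.Cofinal (PI X) := fun z => Sum.rec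
    (fun x => ⟨{t | ∃ y, (x, y) ∈ t.1}, fun s => by
      obtain ⟨t, ht, hx⟩ := hX.extend s x
      exact ⟨t, hx, ht⟩⟩)
    (fun y => ⟨{t | ∃ x, (x, y) ∈ t.1}, fun s => by
      obtain ⟨t, ht, hx⟩ := hX.extend' s y
      exact ⟨t, hx, ht⟩⟩) z
  let I := Order.idealOfCofinals s0 D
  have hdir : ∀ s ∈ I, ∀ t ∈ I, ∃ u ∈ I, s ≤ u ∧ t ≤ u := I.directed
  have hiso : ∀ s ∈ I, ∀ t ∈ I, ∀ a ∈ s.1, ∀ b ∈ t.1, dist a.1 b.1 = dist a.2 b.2 := by
    intro s hs t ht a ha b hb
    obtain ⟨u, -, h1, h2⟩ := hdir s hs t ht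
    exact u.2 a (h1 ha) b (h2 hb)
  have hF : ∀ x : X, ∃ y, ∃ s ∈ I, (x, y) ∈ s.1 := fun x => by
    obtain ⟨s, ⟨y, hy⟩, hs⟩ := Order.cofinal_meets_idealOfCofinals s0 D (Sum.inl x)
    exact ⟨y, s, hs, hy⟩
  have hG : ∀ y : X, ∃ x, ∃ s ∈ I, (x, y) ∈ s.1 := fun y => by
    obtain ⟨s, ⟨x, hx⟩, hs⟩ := Order.cofinal_meets_idealOfCofinals s0 D (Sum.inr y)
    exact ⟨x, s, hs, hx⟩
  choose F sF hsF hF using hF
  choose G sG hsG hG using hG
  have hFG : ∀ y, F (G y) = y := fun y => by
    have := hiso _ (hsF (G y)) _ (hsG y) _ (hF (G y)) _ (hG y)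
    simp only [dist_self] at this
    exact dist_eq_zero.mp this.symm
  have hGF : ∀ x, G (F x) = x := fun x => by
    have := hiso _ (hsG (F x)) _ (hsF x) _ (hG (F x)) _ (hF x)
    simp only [dist_self] at this
    exact dist_eq_zero.mp this
  refine ⟨⟨⟨F, G, hGF, hFG⟩, ?_⟩, fun i => ?_⟩
  · refine Isometry.of_dist_eq fun x y => ?_
    exact (hiso _ (hsF x) _ (hsF y) _ (hF x) _ (hF y)).symm
  · show F (p i) = q i
    have h1 : (p i, q i) ∈ s0.1 := Finset.mem_image_of_mem _ (Finset.mem_univ i)
    have := hiso _ (hsF (p i)) _ (Order.mem_idealOfCofinals s0 D) _ (hF (p i)) _ h1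
    simp only [dist_self] at this
    exact dist_eq_zero.mp this.symm

/-- Free amalgamation over a point. -/
theorem IsQU.free (hX : IsQU X) (a : X) (F Y : Finset X) (haF : a ∈ F) (haY : a ∈ Y) :
    ∃ g : X ≃ᵢ X, g a = a ∧ ∀ x ∈ F, ∀ y ∈ Y, dist (g x) y = dist x a + dist a y := by
  classical
  have key : ∀ F' : Finset X, ∃ q : X → X, (∀ x ∈ F', ∀ x' ∈ F', dist (q x) (q x') = dist x x') ∧
      (∀ x ∈ F', ∀ y ∈ Y, dist (q x) y = dist x a + dist a y) := by
    intro F'
    induction F' using Finset.induction_on with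
    | empty => exact ⟨id, by simp, by simp⟩
    | insert z F' hz ih =>
      obtain ⟨q, hq1, hq2⟩ := ih
      obtain ⟨w, hw⟩ := hX.ext' (ι := F' ⊕ Y) (Sum.elim (fun x => q x) (fun y => y))
        (Sum.elim (fun x => dist z x) (fun y => dist z a + dist a y))
        (by
          rintro (x | y)
          · exact hX.rat _ _
          · obtain ⟨q1, h1⟩ := hX.rat z a
            obtain ⟨q2, h2⟩ := hX.rat a y
            refine ⟨q1 + q2, ?_⟩
            simp only [Sum.elim_inr]
            rw [h1, h2]
            push_cast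
            rfl)
        (by
          rintro (x | y) (x' | y')
          · simp only [Sum.elim_inl]
            rw [hq1 x x.2 x' x'.2, dist_comm (x : X) x']
            exact dist_triangle _ _ _
          · simp only [Sum.elim_inl, Sum.elim_inr]
            rw [hq2 x x.2 y' y'.2]
            have h1 := dist_triangle z a x
            rw [dist_comm a (x : X)] at h1
            have h2 : 0 ≤ dist a (y' : X) := dist_nonneg
            linarith
          · simp only [Sum.elim_inl, Sum.elim_inr]
            rw [dist_comm (y : X), hq2 x' x'.2 y y.2]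
            have h1 := dist_triangle z x' a
            linarith
          · simp only [Sum.elim_inr]
            have h1 := dist_triangle a y' y
            rw [dist_comm (y' : X) y] at h1
            linarith)
        (by
          rintro (x | y) (x' | y')
          · simp only [Sum.elim_inl]
            rw [hq1 x x.2 x' x'.2, dist_comm z x]
            exact dist_triangle _ _ _
          · simp only [Sum.elim_inl, Sum.elim_inr]
            rw [hq2 x x.2 y' y'.2]
            have h1 := dist_triangle (x : X) z a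
            rw [dist_comm (x : X) z] at h1
            linarith
          · simp only [Sum.elim_inl, Sum.elim_inr]
            rw [dist_comm (y : X), hq2 x' x'.2 y y.2]
            have h1 := dist_triangle (x' : X) z a
            rw [dist_comm (x' : X) z] at h1
            linarith
          · simp only [Sum.elim_inr]
            have h1 := dist_triangle (y : X) a y'
            rw [dist_comm (y : X) a] at h1
            have h2 : 0 ≤ dist z a := dist_nonneg
            linarith)
      have hw1 : ∀ x ∈ F', dist w (q x) = dist z x := fun x hx => hw (Sum.inl ⟨x, hx⟩)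
      have hw2 : ∀ y ∈ Y, dist w y = dist z a + dist a y := fun y hy => hw (Sum.inr ⟨y, hy⟩)
      have hqx : ∀ x ∈ F', Function.update q z w x = q x := fun x hx =>
        Function.update_of_ne (by rintro rfl; exact hz hx) _ _
      refine ⟨Function.update q z w, ?_, ?_⟩
      · intro x hx x' hx'
        rw [Finset.mem_insert] at hx hx'
        rcases hx with rfl | hx <;> rcases hx' with rfl | hx'
        · simp
        · rw [Function.update_self, hqx x' hx']
          exact hw1 x' hx'
        · rw [Function.update_self, hqx x hx, dist_comm, hw1 x hx, dist_comm]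
        · rw [hqx x hx, hqx x' hx']
          exact hq1 x hx x' hx'
      · intro x hx y hy
        rw [Finset.mem_insert] at hx
        rcases hx with rfl | hx
        · rw [Function.update_self]
          exact hw2 y hy
        · rw [hqx x hx]
          exact hq2 x hx y hy
  obtain ⟨q, hq1, hq2⟩ := key F
  obtain ⟨g, hg⟩ := hX.hom (ι := F) (fun x => x) (fun x => q x) (fun x x' => (hq1 x x.2 x' x'.2).symm)
  have hg' : ∀ x ∈ F, g x = q x := fun x hx => hg ⟨x, hx⟩
  refine ⟨g, ?_, fun x hx y hy => ?_⟩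
  · rw [hg' a haF]
    have := hq2 a haF a haY
    rw [dist_self, add_zero] at this
    exact dist_eq_zero.mp this
  · rw [hg' x hx]
    exact hq2 x hx y hy

end Pool.Agent.Q91.QU
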