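import Pool.Agent.Q91.QU

/-!
# Existence of the rational Urysohn space
-/

set_option autoImplicit false

open Set

namespace Pool.Agent.Q91.QU

/-- `M` is a metric on the numbers below `n`. -/
structure IsM (n : ℕ) (M : ℕ → ℕ → ℚ) : Prop where
  self : ∀ i < n, M i i = 0
  pos : ∀ i < n, ∀ j < n, i ≠ j → 0 < M i j
  symm : ∀ i < n, ∀ j < n, M i j = M j i
  tri : ∀ i < n, ∀ j < n, ∀ k < n, M i k ≤ M i j + M j k

/-- a valid request -/
def Valid (n : ℕ) (M : ℕ → ℕ → ℚ) (R : Finset (ℕ × ℚ)) : Prop :=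
  R.Nonempty ∧ (∀ p ∈ R, p.1 < n ∧ 0 < p.2) ∧
    ∀ p ∈ R, ∀ q ∈ R, p.2 ≤ q.2 + M q.1 p.1 ∧ M p.1 q.1 ≤ p.2 + q.2

theorem IsM.nonneg {n : ℕ} {M : ℕ → ℕ → ℚ} (h : IsM n M) {i j : ℕ} (hi : i < n) (hj : j < n) :
    0 ≤ M i j := by
  by_cases hij : i = j
  · subst hij
    rw [h.self i hi]
  · exact (h.pos i hi j hj hij).le

theorem addRow {n : ℕ} {M : ℕ → ℕ → ℚ} (h : IsM n M) (f : ℕ → ℚ) (hf : ∀ i < n, 0 < f i)
    (hl : ∀ i < n, ∀ j < n, f i ≤ f j + M j i) (hs : ∀ i < n, ∀ j < n, M i j ≤ f i + f j) :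
    ∃ M' : ℕ → ℕ → ℚ, IsM (n + 1) M' ∧ (∀ i < n, ∀ j < n, M' i j = M i j) ∧
      ∀ i < n, M' n i = f i := by
  let M' : ℕ → ℕ → ℚ := fun i j => if i = n then (if j = n then 0 else f j) else
    if j = n then f i else M i j
  have e1 : ∀ i < n, ∀ j < n, M' i j = M i j := fun i hi j hj => by
    simp [M', hi.ne, hj.ne]
  have e2 : ∀ i < n, M' n i = f i := fun i hi => by simp [M', hi.ne]
  have e3 : ∀ i < n, M' i n = f i := fun i hi => by simp [M', hi.ne]
  have e4 : M' n n = 0 := by simp [M']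
  have hc : ∀ i < n + 1, i < n ∨ i = n := fun i hi => by omega
  refine ⟨M', ⟨?_, ?_, ?_, ?_⟩, e1, e2⟩
  · intro i hi
    rcases hc i hi with hi | rfl
    · rw [e1 i hi i hi]
      exact h.self i hi
    · exact e4
  · intro i hi j hj hij
    rcases hc i hi with hi | rfl <;> rcases hc j hj with hj | rfl
    · rw [e1 i hi j hj]
      exact h.pos i hi j hj hij
    · rw [e3 i hi]
      exact hf i hi
    · rw [e2 j hj]
      exact hf j hj
    · exact absurd rfl hij
  · intro i hi j hj
    rcases hc i hi with hi | rfl <;> rcases hc j hj with hj | rfl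
    · rw [e1 i hi j hj, e1 j hj i hi]
      exact h.symm i hi j hj
    · rw [e3 i hi, e2 i hi]
    · rw [e2 j hj, e3 j hj]
    · rfl
  · intro i hi j hj k hk
    rcases hc i hi with hi | rfl <;> rcases hc j hj with hj | rfl <;> rcases hc k hk with hk | rfl
    · rw [e1 i hi j hj, e1 i hi k hk, e1 j hj k hk]
      exact h.tri i hi j hj k hk
    · rw [e1 i hi j hj, e3 i hi, e3 j hj, h.symm i hi j hj, add_comm]
      exact hl i hi j hj
    · rw [e1 i hi k hk, e3 i hi, e2 k hk]
      exact hs i hi k hk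
    · rw [e4, add_zero]
    · rw [e2 k hk, e2 j hj, e1 j hj k hk]
      exact hl k hk j hj
    · rw [e4, e2 j hj, e3 j hj]
      have := hf j hj
      linarith
    · rw [e4, e2 k hk, zero_add]
    · rw [e4]
      simp

theorem step {n : ℕ} {M : ℕ → ℕ → ℚ} (h : IsM n M) (R : Finset (ℕ × ℚ)) :
    ∃ M' : ℕ → ℕ → ℚ, IsM (n + 1) M' ∧ (∀ i < n, ∀ j < n, M' i j = M i j) ∧
      (Valid n M R → ∀ p ∈ R, M' n p.1 = p.2) := by
  classical
  by_cases hv : Valid n M R
  · obtain ⟨hne, h1, h2⟩ := hv
    let f : ℕ → ℚ := fun j => R.inf' hne (fun p => p.2 + M p.1 j)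
    have hle : ∀ j, ∀ p ∈ R, f j ≤ p.2 + M p.1 j := fun j p hp =>
      Finset.inf'_le (fun p : ℕ × ℚ => p.2 + M p.1 j) hp
    have hex : ∀ j, ∃ p ∈ R, f j = p.2 + M p.1 j := fun j => by
      obtain ⟨p, hp, hp2⟩ := Finset.exists_mem_eq_inf' hne (fun p : ℕ × ℚ => p.2 + M p.1 j)
      exact ⟨p, hp, hp2⟩
    obtain ⟨M', hM', he, hf⟩ := addRow h f (by
      intro i hi
      obtain ⟨p, hp, hp2⟩ := hex i
      rw [hp2]
      have := h.nonneg (h1 p hp).1 hi
      have := (h1 p hp).2
      linarith) (by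
      intro i hi j hj
      obtain ⟨p, hp, hp2⟩ := hex j
      rw [hp2]
      have := hle i p hp
      have := h.tri p.1 (h1 p hp).1 j hj i hi
      linarith) (by
      intro i hi j hj
      obtain ⟨p, hp, hp2⟩ := hex i
      obtain ⟨q, hq, hq2⟩ := hex j
      rw [hp2, hq2]
      have a1 := (h2 p hp q hq).2
      have a2 := h.tri i hi p.1 (h1 p hp).1 j hj
      have a3 := h.tri p.1 (h1 p hp).1 q.1 (h1 q hq).1 j hj
      have a4 := h.symm i hi p.1 (h1 p hp).1
      linarith)
    refine ⟨M', hM', he, fun _ p hp => ?_⟩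
    rw [hf p.1 (h1 p hp).1]
    apply le_antisymm
    · have := hle p.1 p hp
      rwa [h.self p.1 (h1 p hp).1, add_zero] at this
    · obtain ⟨q, hq, hq2⟩ := hex p.1
      rw [hq2]
      exact (h2 p hp q hq).1
  · let c : ℚ := 1 + ∑ i ∈ Finset.range n, ∑ j ∈ Finset.range n, |M i j|
    have hc0 : 0 < c := by
      have : 0 ≤ ∑ i ∈ Finset.range n, ∑ j ∈ Finset.range n, |M i j| :=
        Finset.sum_nonneg fun i _ => Finset.sum_nonneg fun j _ => abs_nonneg _
      linarith
    have hc : ∀ i < n, ∀ j < n, M i j ≤ c := by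
      intro i hi j hj
      have a1 : |M i j| ≤ ∑ j ∈ Finset.range n, |M i j| :=
        Finset.single_le_sum (f := fun j => |M i j|) (fun j _ => abs_nonneg _)
          (Finset.mem_range.mpr hj)
      have a2 : ∑ j ∈ Finset.range n, |M i j| ≤
          ∑ i ∈ Finset.range n, ∑ j ∈ Finset.range n, |M i j| :=
        Finset.single_le_sum (f := fun i => ∑ j ∈ Finset.range n, |M i j|)
          (fun i _ => Finset.sum_nonneg fun j _ => abs_nonneg _) (Finset.mem_range.mpr hi)
      have := le_abs_self (M i j)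
      linarith
    obtain ⟨M', hM', he, hf⟩ := addRow h (fun _ => c) (fun _ _ => hc0) (by
      intro i hi j hj
      have := h.nonneg hj hi
      linarith) (by
      intro i hi j hj
      have := hc i hi j hj
      linarith)
    exact ⟨M', hM', he, fun h => absurd h hv⟩

/-- the request treated at stage `n` -/
noncomputable def req (n : ℕ) : Finset (ℕ × ℚ) :=
  (Encodable.decode (Nat.unpair n).2 : Option (Finset (ℕ × ℚ))).getD ∅

/-- the sequence of metrics -/
noncomputable def mseq : (n : ℕ) → {M : ℕ → ℕ → ℚ // IsM n M}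
  | 0 => ⟨fun _ _ => 0, ⟨fun i hi => absurd hi (by omega), fun i hi => absurd hi (by omega),
      fun i hi => absurd hi (by omega), fun i hi => absurd hi (by omega)⟩⟩
  | n + 1 => ⟨(step (mseq n).2 (req n)).choose, (step (mseq n).2 (req n)).choose_spec.1⟩

theorem mseq_succ (n : ℕ) : (∀ i < n, ∀ j < n, (mseq (n + 1)).1 i j = (mseq n).1 i j) ∧
      (Valid n (mseq n).1 (req n) → ∀ p ∈ req n, (mseq (n + 1)).1 n p.1 = p.2) := by
  exact (step (mseq n).2 (req n)).choose_spec.2

theorem mseq_stable (n m : ℕ) (h : n ≤ m) : ∀ i < n, ∀ j < n, (mseq m).1 i j = (mseq n).1 i j := by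
  intro i hi j hj
  induction m, h using Nat.le_induction with
  | base => rfl
  | succ m hm ih =>
    rw [← ih]
    exact (mseq_succ m).1 i (by omega) j (by omega)

/-- the limit metric -/
noncomputable def D (i j : ℕ) : ℚ := (mseq (max i j + 1)).1 i j

theorem D_eq {n i j : ℕ} (hi : i < n) (hj : j < n) : (mseq n).1 i j = D i j :=
  mseq_stable _ _ (by omega) i (by omega) j (by omega)

/-- the rational Urysohn space -/
structure QUr : Type where
  /-- the index of a point -/
  idx : ℕ

theorem QUr.ext_idx {x y : QUr} (h : x.idx = y.idx) : x = y := by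
  cases x
  cases y
  simp_all

noncomputable instance : MetricSpace QUr where
  dist x y := (D x.idx y.idx : ℝ)
  dist_self x := by
    have : D x.idx x.idx = 0 := (mseq _).2.self _ (by omega)
    show ((D x.idx x.idx : ℚ) : ℝ) = 0
    rw [this]
    simp
  dist_comm x y := by
    obtain ⟨n, hx, hy⟩ : ∃ n, x.idx < n ∧ y.idx < n := ⟨max x.idx y.idx + 1, by omega, by omega⟩
    show ((D x.idx y.idx : ℚ) : ℝ) = D y.idx x.idx
    rw [← D_eq hx hy, ← D_eq hy hx, (mseq n).2.symm _ hx _ hy]
  dist_triangle x y z := by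
    obtain ⟨n, hx, hy, hz⟩ : ∃ n, x.idx < n ∧ y.idx < n ∧ z.idx < n :=
      ⟨max x.idx (max y.idx z.idx) + 1, by omega, by omega, by omega⟩
    show ((D x.idx z.idx : ℚ) : ℝ) ≤ D x.idx y.idx + D y.idx z.idx
    rw [← D_eq hx hy, ← D_eq hy hz, ← D_eq hx hz]
    exact_mod_cast (mseq n).2.tri _ hx _ hy _ hz
  eq_of_dist_eq_zero := by
    intro x y h
    obtain ⟨n, hx, hy⟩ : ∃ n, x.idx < n ∧ y.idx < n := ⟨max x.idx y.idx + 1, by omega, by omega⟩
    by_contra hxy
    have h1 : ((D x.idx y.idx : ℚ) : ℝ) = 0 := h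
    have h2 := (mseq n).2.pos _ hx _ hy (fun e => hxy (QUr.ext_idx e))
    rw [D_eq hx hy] at h2
    rw [Rat.cast_eq_zero] at h1
    rw [h1] at h2
    exact lt_irrefl _ h2

theorem dist_def (x y : QUr) : dist x y = (D x.idx y.idx : ℝ) := rfl

theorem isQU_QUr : IsQU QUr := by
  classical
  refine ⟨?_, fun x y => ⟨_, dist_def x y⟩, ?_⟩
  · have : Function.Injective QUr.idx := fun x y h => QUr.ext_idx h
    exact this.countable
  · intro A f hpos hK
    by_cases hA : A.Nonempty
    · let R : Finset (ℕ × ℚ) := A.image (fun a => (a.idx, f a))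
      obtain ⟨k, hk⟩ : ∃ k, ∀ a ∈ A, a.idx < k := by
        refine ⟨A.sup QUr.idx + 1, fun a ha => ?_⟩
        have : a.idx ≤ A.sup QUr.idx := Finset.le_sup ha
        omega
      obtain ⟨n, hn⟩ : ∃ n, n = Nat.pair k (Encodable.encode R) := ⟨_, rfl⟩
      have hreq : req n = R := by
        unfold req
        rw [hn, Nat.unpair_pair]
        simp
      have hkn : k ≤ n := by
        rw [hn]
        exact Nat.left_le_pair _ _
      have hval : Valid n (mseq n).1 (req n) := by
        rw [hreq]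
        refine ⟨hA.image _, ?_, ?_⟩
        · intro p hp
          obtain ⟨a, ha, rfl⟩ := Finset.mem_image.mp hp
          exact ⟨lt_of_lt_of_le (hk a ha) hkn, hpos a ha⟩
        · intro p hp q hq
          obtain ⟨a, ha, rfl⟩ := Finset.mem_image.mp hp
          obtain ⟨b, hb, rfl⟩ := Finset.mem_image.mp hq
          obtain ⟨h1, h2⟩ := hK a ha b hb
          have ha' := lt_of_lt_of_le (hk a ha) hkn
          have hb' := lt_of_lt_of_le (hk b hb) hkn
          simp only
          rw [D_eq hb' ha', D_eq ha' hb']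
          rw [abs_le] at h1
          constructor
          · have h3 : (f a : ℝ) ≤ f b + dist b a := by
              rw [dist_comm]
              linarith
            rw [dist_def] at h3
            exact_mod_cast h3
          · rw [dist_def] at h2
            exact_mod_cast h2
      have hres := (mseq_succ n).2 hval
      refine ⟨⟨n⟩, fun a ha => ?_⟩
      have h1 : a.idx < n + 1 := by
        have := hk a ha
        omega
      have h2 := hres (a.idx, f a) (by
        rw [hreq]
        exact Finset.mem_image_of_mem _ ha)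
      simp only at h2
      rw [D_eq (Nat.lt_succ_self n) h1] at h2
      rw [dist_def, h2]
    · rw [Finset.not_nonempty_iff_eq_empty] at hA
      exact ⟨⟨0⟩, fun a ha => by simp [hA] at ha⟩

end Pool.Agent.Q91.QU
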