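import Pool.Agent.Q91.Refl2
import Pool.Agent.Q91.QU

/-!
# Affine isometric actions of the isometry group of the rational Urysohn space
-/

set_option autoImplicit false

open Set Pool.Agent.Q91.Refl

namespace Pool.Agent.Q91.QU

variable {X : Type} [MetricSpace X]

/-- two group elements move `F` to two copies which are free over `a` -/
def Free (F : Finset X) (a : X) (g h : X ≃ᵢ X) : Prop :=
  ∀ x ∈ F, ∀ y ∈ F, dist (g x) (h y) = dist x a + dist a y

theorem Free.symm {F : Finset X} {a : X} {g h : X ≃ᵢ X} (H : Free F a g h) : Free F a h g := by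
  intro x hx y hy
  rw [dist_comm, H y hy x hx, dist_comm y a, dist_comm a x, add_comm]

theorem free_seq (hX : IsQU X) (F Y : Finset X) (a : X) (haF : a ∈ F) :
    ∃ g : ℕ → (X ≃ᵢ X), (∀ n, g n a = a ∧ ∀ x ∈ F, ∀ y ∈ Y, dist (g n x) y = dist x a + dist a y) ∧
      ∀ m n, m ≠ n → Free F a (g m) (g n) := by
  classical
  have := exists_seq_of_forall_finset_exists
    (fun g : X ≃ᵢ X => g a = a ∧ ∀ x ∈ F, ∀ y ∈ Y, dist (g x) y = dist x a + dist a y)
    (fun g h => Free F a g h) (by
      intro s hs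
      obtain ⟨g, hg1, hg2⟩ := hX.free a F (insert a (Y ∪ s.biUnion (fun h => F.image h))) haF
        (Finset.mem_insert_self _ _)
      refine ⟨g, ⟨hg1, fun x hx y hy => hg2 x hx y ?_⟩, fun h hh => Free.symm fun x hx y hy => ?_⟩
      · exact Finset.mem_insert_of_mem (Finset.mem_union_left _ hy)
      · have h1 := hg2 x hx (h y) (Finset.mem_insert_of_mem (Finset.mem_union_right _
          (Finset.mem_biUnion.mpr ⟨h, hh, Finset.mem_image_of_mem _ hy⟩)))
        have h2 : dist a (h y) = dist a y := by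
          conv_lhs => rw [← (hs h hh).1]
          exact h.dist_eq a y
        rw [h1, h2])
  obtain ⟨g, hg1, hg2⟩ := this
  refine ⟨g, hg1, fun m n hmn => ?_⟩
  rcases lt_or_gt_of_ne hmn with h | h
  · exact hg2 m n h
  · exact (hg2 n m h).symm

variable {E : Type*} [NormedAddCommGroup E] [NormedSpace ℝ E]

theorem aff_mul (S T : E ≃ᵃⁱ[ℝ] E) (x : E) : (S * T) x = S (T x) := rfl

theorem move (hX : IsQU X) (α : (X ≃ᵢ X) →* (E ≃ᵃⁱ[ℝ] E)) {F : Finset X} {a : X} {ε : ℝ}
    (hF : ∀ h : X ≃ᵢ X, (∀ x ∈ F, h x = x) → ‖α h 0‖ ≤ ε)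
    {ι : Type} [Fintype ι] (g h : ι → (X ≃ᵢ X)) (hg : ∀ i j, i ≠ j → Free F a (g i) (g j))
    (hh : ∀ i j, i ≠ j → Free F a (h i) (h j)) :
    ∃ k : X ≃ᵢ X, ∀ i, ‖α k (α (g i) 0) - α (h i) 0‖ ≤ ε := by
  obtain ⟨k, hk⟩ := hX.hom (ι := ι × F) (fun i => g i.1 i.2) (fun i => h i.1 i.2) (by
    rintro ⟨i, x⟩ ⟨j, y⟩
    by_cases hij : i = j
    · subst hij
      simp only
      rw [(g i).dist_eq, (h i).dist_eq]
    · simp only
      rw [hg i j hij x x.2 y y.2, hh i j hij x x.2 y y.2])
  refine ⟨k, fun i => ?_⟩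
  have h1 : ∀ x ∈ F, ((h i)⁻¹ * k * g i) x = x := by
    intro x hx
    rw [IsometryEquiv.mul_apply, IsometryEquiv.mul_apply, hk (i, ⟨x, hx⟩)]
    exact IsometryEquiv.inv_apply_self _ _
  have h2 := hF _ h1
  have h3 : α k (α (g i) 0) = α (h i) (α ((h i)⁻¹ * k * g i) 0) := by
    rw [← aff_mul, ← aff_mul, ← map_mul, ← map_mul]
    congr 2
    group
  rw [h3, aff_sub, LinearIsometryEquiv.norm_map, sub_zero]
  exact h2

/-- the code of a pair -/
def code (i : ℕ × Bool) : ℕ := 2 * i.1 + i.2.toNat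

theorem code_inj {i j : ℕ × Bool} (h : i ≠ j) : code i ≠ code j := by
  intro e
  apply h
  rcases i with ⟨i, _ | _⟩ <;> rcases j with ⟨j, _ | _⟩ <;> simp [code] at e ⊢ <;> omega

/-- Almost fixed points for the stabiliser of a point. -/
theorem almost (hr : Function.Surjective (NormedSpace.inclusionInDoubleDual ℝ E))
    (hX : IsQU X) (α : (X ≃ᵢ X) →* (E ≃ᵃⁱ[ℝ] E))
    (hc : ∀ ε : ℝ, 0 < ε → ∃ F : Finset X, ∀ h : X ≃ᵢ X, (∀ x ∈ F, h x = x) → ‖α h 0‖ ≤ ε)
    (a : X) (ε : ℝ) (hε : 0 < ε) :
    ∃ (m : ℕ) (g : Fin m → (X ≃ᵢ X)), 0 < m ∧ (∀ i, g i a = a) ∧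
      ∀ k : X ≃ᵢ X, k a = a → ‖α k ((m : ℝ)⁻¹ • ∑ i, α (g i) 0) - (m : ℝ)⁻¹ • ∑ i, α (g i) 0‖ ≤ ε := by
  classical
  obtain ⟨F', hF'⟩ := hc (ε / 14) (by positivity)
  obtain ⟨F, haF, hF⟩ : ∃ F : Finset X, a ∈ F ∧ ∀ h : X ≃ᵢ X, (∀ x ∈ F, h x = x) → ‖α h 0‖ ≤ ε / 14 :=
    ⟨insert a F', Finset.mem_insert_self _ _, fun h hh => hF' h fun x hx =>
      hh x (Finset.mem_insert_of_mem hx)⟩
  obtain ⟨g, hg1, hg2⟩ := free_seq hX F ∅ a haF
  have hsym : Sym (ε / 14) (fun n b => α (g (code (n, b))) 0) := by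
    intro ι _ φ ψ hφ hψ
    obtain ⟨k, hk⟩ := move hX α hF (fun i => g (code (φ i))) (fun i => g (code (ψ i)))
      (fun i j hij => hg2 _ _ (code_inj (fun h => hij (hφ h))))
      (fun i j hij => hg2 _ _ (code_inj (fun h => hij (hψ h))))
    exact ⟨α k, hk⟩
  obtain ⟨m, hm, hw⟩ := sym_average hr hsym (ε / 14) (by positivity)
  refine ⟨m, fun i => g (code (i, false)), hm, fun i => (hg1 _).1, fun k hk => ?_⟩
  obtain ⟨h, hh1, hh2⟩ := free_seq hX F
    ((Finset.univ : Finset (Fin m)).biUnion (fun i => F.image (g (code (i, false))) ∪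
      F.image (k * g (code (i, false))))) a haF
  rw [aff_sum _ hm]
  have hfree1 : ∀ (i j : Fin m), Free F a (h i) (g (code (j, false))) := by
    intro i j x hx y hy
    rw [(hh1 i).2 x hx _ (Finset.mem_biUnion.mpr ⟨j, Finset.mem_univ _, Finset.mem_union_left _
      (Finset.mem_image_of_mem _ hy)⟩)]
    congr 1
    conv_lhs => rw [← (hg1 (code (j, false))).1]
    exact (g (code (j, false))).dist_eq a y
  have hfree2 : ∀ (i j : Fin m), Free F a (h i) (k * g (code (j, false))) := by
    intro i j x hx y hy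
    rw [(hh1 i).2 x hx _ (Finset.mem_biUnion.mpr ⟨j, Finset.mem_univ _, Finset.mem_union_right _
      (Finset.mem_image_of_mem _ hy)⟩)]
    congr 1
    have : (k * g (code (j, false))) a = a := by
      rw [IsometryEquiv.mul_apply, (hg1 (code (j, false))).1, hk]
    conv_lhs => rw [← this]
    exact (k * g (code (j, false))).dist_eq a y
  have hfree3 : ∀ (i j : Fin m), i ≠ j → Free F a (k * g (code (i, false))) (k * g (code (j, false))) := by
    intro i j hij x hx y hy
    rw [IsometryEquiv.mul_apply, IsometryEquiv.mul_apply, k.dist_eq]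
    refine hg2 _ _ (code_inj fun e => hij ?_) x hx y hy
    simp only [Prod.mk.injEq, and_true] at e
    exact Fin.ext e
  have hcmp := compare (v := fun n b => α (g (code (n, b))) 0) (ε := ε / 14) (δ := ε / 14) hm hw (fun i => α k (α (g (code (i, false))) 0)) (fun i => α (g (code (i, false))) 0)
    (fun i => α (h i) 0) (by
      obtain ⟨T, hT⟩ := move hX α hF (ι := Fin m × Bool)
        (fun i => if i.2 then h i.1 else k * g (code (i.1, false))) (fun i => g (code (i.1, i.2)))
        (by
          rintro ⟨i, b⟩ ⟨j, c⟩ hij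
          cases b <;> cases c
          · simp only [Bool.false_eq_true, if_false]
            exact hfree3 i j (fun e => hij (by rw [e]))
          · simp only [Bool.false_eq_true, if_false, if_true]
            exact (hfree2 j i).symm
          · simp only [Bool.false_eq_true, if_false, if_true]
            exact hfree2 i j
          · simp only [if_true]
            exact hh2 _ _ (fun e => hij (by rw [Fin.ext e])))
        (by
          rintro ⟨i, b⟩ ⟨j, c⟩ hij
          refine hg2 _ _ (code_inj fun e => hij ?_)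
          simp only [Prod.mk.injEq] at e
          exact Prod.ext (Fin.ext e.1) e.2)
      refine ⟨α T, fun i b => ?_⟩
      have := hT (i, b)
      cases b
      · simp only [Bool.false_eq_true, if_false] at this ⊢
        rw [map_mul, aff_mul] at this
        exact this
      · simpa using this)
    (by
      obtain ⟨T, hT⟩ := move hX α hF (ι := Fin m × Bool)
        (fun i => if i.2 then h i.1 else g (code (i.1, false))) (fun i => g (code (i.1, i.2)))
        (by
          rintro ⟨i, b⟩ ⟨j, c⟩ hij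
          cases b <;> cases c
          · simp only [Bool.false_eq_true, if_false]
            refine hg2 _ _ (code_inj fun e => hij ?_)
            simp only [Prod.mk.injEq, and_true] at e
            rw [Fin.ext e]
          · simp only [Bool.false_eq_true, if_false, if_true]
            exact (hfree1 j i).symm
          · simp only [Bool.false_eq_true, if_false, if_true]
            exact hfree1 i j
          · simp only [if_true]
            exact hh2 _ _ (fun e => hij (by rw [Fin.ext e])))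
        (by
          rintro ⟨i, b⟩ ⟨j, c⟩ hij
          refine hg2 _ _ (code_inj fun e => hij ?_)
          simp only [Prod.mk.injEq] at e
          exact Prod.ext (Fin.ext e.1) e.2)
      refine ⟨α T, fun i b => ?_⟩
      have := hT (i, b)
      cases b
      · simpa using this
      · simpa using this)
  refine hcmp.trans ?_
  linarith

/-- The stabiliser of a point has a fixed point. -/
theorem stab_fixed (hr : Function.Surjective (NormedSpace.inclusionInDoubleDual ℝ E))
    (hX : IsQU X) (α : (X ≃ᵢ X) →* (E ≃ᵃⁱ[ℝ] E))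
    (hc : ∀ ε : ℝ, 0 < ε → ∃ F : Finset X, ∀ h : X ≃ᵢ X, (∀ x ∈ F, h x = x) → ‖α h 0‖ ≤ ε)
    (a : X) : ∃ z : E, ∀ k : X ≃ᵢ X, k a = a → α k z = z := by
  obtain ⟨m0, g0, hm0, hg0, h0⟩ := almost hr hX α hc a 1 one_pos
  obtain ⟨z0, hz0⟩ : ∃ z0, z0 = (m0 : ℝ)⁻¹ • ∑ i, α (g0 i) 0 := ⟨_, rfl⟩
  rw [← hz0] at h0
  have hR : ∀ k : X ≃ᵢ X, k a = a → ‖α k 0‖ ≤ 2 * ‖z0‖ + 1 := by
    intro k hk
    have h1 : ‖α k 0 - α k z0‖ = ‖z0‖ := by
      rw [aff_sub, LinearIsometryEquiv.norm_map, zero_sub, norm_neg]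
    have h2 := h0 k hk
    have e : α k 0 = (α k 0 - α k z0) + (α k z0 - z0) + z0 := by abel
    rw [e]
    have a1 := norm_add_le ((α k 0 - α k z0) + (α k z0 - z0)) z0
    have a2 := norm_add_le (α k 0 - α k z0) (α k z0 - z0)
    linarith
  obtain ⟨z, hz⟩ := fixed_of_almost hr {T | ∃ k : X ≃ᵢ X, k a = a ∧ T = α k} (2 * ‖z0‖ + 1) (by
    intro ε hε
    obtain ⟨m, g, hm, hg, h⟩ := almost hr hX α hc a ε hε
    refine ⟨(m : ℝ)⁻¹ • ∑ i, α (g i) 0, ?_, ?_⟩
    rotate_left
    · rintro T ⟨k, hk, rfl⟩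
      exact h k hk
    · have hm' : (0 : ℝ) < m := by exact_mod_cast hm
      rw [norm_smul, Real.norm_of_nonneg (by positivity), inv_mul_le_iff₀ hm']
      refine (norm_sum_le _ _).trans ?_
      have : ∀ i ∈ (Finset.univ : Finset (Fin m)), ‖α (g i) 0‖ ≤ 2 * ‖z0‖ + 1 := fun i _ =>
        hR _ (hg i)
      refine (Finset.sum_le_card_nsmul _ _ _ this).trans ?_
      simp [mul_add])
  exact ⟨z, fun k hk => hz _ ⟨k, hk, rfl⟩⟩

theorem IsQU.trans (hX : IsQU X) (a b : X) : ∃ g : X ≃ᵢ X, g a = b := by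
  obtain ⟨g, hg⟩ := hX.hom (ι := Unit) (fun _ => a) (fun _ => b) (by simp)
  exact ⟨g, hg ()⟩

/-- pairwise distance one sequences -/
theorem equilateral (hX : IsQU X) (Y : Finset X) (hY0 : Y.Nonempty)
    (hY : ∀ x ∈ Y, ∀ y ∈ Y, dist x y ≤ 2) :
    ∃ c : ℕ → X, (∀ n, ∀ y ∈ Y, dist (c n) y = 1) ∧ ∀ m n, m ≠ n → dist (c m) (c n) = 1 := by
  classical
  obtain ⟨y0, hy0⟩ := hY0
  obtain ⟨c, hc1, hc2⟩ := exists_seq_of_forall_finset_exists
    (fun x : X => ∀ y ∈ Y, dist x y = 1) (fun x y => dist x y = 1) (by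
      intro s hs
      have hle : ∀ x ∈ Y ∪ s, ∀ y ∈ Y ∪ s, dist x y ≤ 2 := by
        intro x hx y hy
        rw [Finset.mem_union] at hx hy
        rcases hx with hx | hx <;> rcases hy with hy | hy
        · exact hY x hx y hy
        · rw [dist_comm, hs y hy x hx]
          norm_num
        · rw [hs x hx y hy]
          norm_num
        · have h1 := dist_triangle_right x y y0
          rw [hs x hx y0 hy0, hs y hy y0 hy0] at h1
          linarith
      obtain ⟨w, hw⟩ := hX.ext' (ι := (Y ∪ s : Finset X)) (fun x => x) (fun _ => 1)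
        (fun _ => ⟨1, by simp⟩) (fun i j => by simp) (fun i j => by
          have := hle i i.2 j j.2
          linarith)
      refine ⟨w, fun y hy => hw ⟨y, Finset.mem_union_left _ hy⟩, fun x hx => ?_⟩
      rw [dist_comm]
      exact hw ⟨x, Finset.mem_union_right _ hx⟩)
  refine ⟨c, hc1, fun m n hmn => ?_⟩
  rcases lt_or_gt_of_ne hmn with h | h
  · exact hc2 m n h
  · rw [dist_comm]
    exact hc2 n m h

/-- Every continuous affine isometric action on a reflexive space has a fixed point. -/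
theorem fixed (hr : Function.Surjective (NormedSpace.inclusionInDoubleDual ℝ E))
    (hX : IsQU X) (α : (X ≃ᵢ X) →* (E ≃ᵃⁱ[ℝ] E))
    (hc : ∀ ε : ℝ, 0 < ε → ∃ F : Finset X, ∀ h : X ≃ᵢ X, (∀ x ∈ F, h x = x) → ‖α h 0‖ ≤ ε) :
    ∃ z : E, ∀ g : X ≃ᵢ X, α g z = z := by
  classical
  obtain ⟨a, -⟩ := hX.ext' (ι := Empty) (fun i => i.elim) (fun i => i.elim) (fun i => i.elim)
    (fun i => i.elim) (fun i => i.elim)
  obtain ⟨xa, hxa⟩ := stab_fixed hr hX α hc a
  choose s hs using fun b => hX.trans a b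
  let Φ : X → E := fun b => α (s b) xa
  have hΦ : ∀ (g : X ≃ᵢ X) (b : X), α g (Φ b) = Φ (g b) := by
    intro g b
    have h1 : ((s (g b))⁻¹ * g * s b) a = a := by
      rw [IsometryEquiv.mul_apply, IsometryEquiv.mul_apply, hs]
      calc (s (g b))⁻¹ (g b) = (s (g b))⁻¹ (s (g b) a) := by rw [hs (g b)]
        _ = a := IsometryEquiv.inv_apply_self _ _
    have h2 := hxa _ h1
    have h3 : α g (Φ b) = α (s (g b)) (α ((s (g b))⁻¹ * g * s b) xa) := by
      show α g (α (s b) xa) = _
      rw [← aff_mul, ← aff_mul, ← map_mul, ← map_mul]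
      congr 2
      group
    rw [h3, h2]
  have hΦa : ∀ k : X ≃ᵢ X, k a = a → α k (Φ a) = Φ a := fun k hk => by
    rw [hΦ, hk]
  obtain ⟨c, hc1, hc2⟩ := equilateral hX {a} (Finset.singleton_nonempty a) (by simp)
  simp only [Finset.mem_singleton, forall_eq] at hc1
  -- exact symmetry
  have hmove : ∀ {ι : Type} [Fintype ι] (p q : ι → X), (∀ i j, i ≠ j → dist (p i) (p j) = 1) →
      (∀ i j, i ≠ j → dist (q i) (q j) = 1) → ∃ T : E ≃ᵃⁱ[ℝ] E, ∀ i, T (Φ (p i)) = Φ (q i) := by
    intro ι _ p q hp hq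
    obtain ⟨g, hg⟩ := hX.hom p q (by
      intro i j
      by_cases hij : i = j
      · rw [hij, dist_self, dist_self]
      · rw [hp i j hij, hq i j hij])
    exact ⟨α g, fun i => by rw [hΦ, hg]⟩
  have hsym : Sym 0 (fun n b => Φ (c (code (n, b)))) := by
    intro ι _ φ ψ hφ hψ
    obtain ⟨T, hT⟩ := hmove (fun i => c (code (φ i))) (fun i => c (code (ψ i)))
      (fun i j hij => hc2 _ _ (code_inj (fun h => hij (hφ h))))
      (fun i j hij => hc2 _ _ (code_inj (fun h => hij (hψ h))))
    exact ⟨T, fun i => by rw [show T (Φ (c (code ((φ i).1, (φ i).2)))) = Φ (c (code (ψ i))) from hT i]; simp⟩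
  -- bound
  have hbd : ∀ x : X, dist x a = 1 → ‖Φ x‖ ≤ ‖Φ a‖ + ‖Φ (c 0) - Φ a‖ := by
    intro x hx
    obtain ⟨g, hg⟩ := hX.hom (ι := Bool) (fun b => if b then a else c 0) (fun b => if b then a else x)
      (by
        intro i j
        cases i <;> cases j <;> simp [hx, hc1, dist_comm a])
    have h1 := hg true
    have h2 := hg false
    simp only [if_true, Bool.false_eq_true, if_false] at h1 h2
    have h3 : Φ x - Φ a = (α g).linearIsometryEquiv (Φ (c 0) - Φ a) := by
      rw [← aff_sub, hΦ, hΦ, h1, h2]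
    have h4 : ‖Φ x - Φ a‖ = ‖Φ (c 0) - Φ a‖ := by
      rw [h3, LinearIsometryEquiv.norm_map]
    have h5 := norm_add_le (Φ a) (Φ x - Φ a)
    rw [add_sub_cancel, h4] at h5
    exact h5
  obtain ⟨z, hz⟩ := fixed_of_almost hr {T | ∃ k : X ≃ᵢ X, dist a (k a) ≤ 2 ∧ T = α k}
    (‖Φ a‖ + ‖Φ (c 0) - Φ a‖) (by
    intro ε hε
    obtain ⟨m, hm, hw⟩ := sym_average hr hsym (ε / 4) (by positivity)
    have hm' : (0 : ℝ) < m := by exact_mod_cast hm
    -- comparison
    have hcmp : ∀ (p q : Fin m → X) (w : X), (∀ i j, i ≠ j → dist (p i) (p j) = 1) →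
        (∀ i j, i ≠ j → dist (q i) (q j) = 1) → (∀ i, dist (p i) w = 1) → (∀ i, dist (q i) w = 1) →
        ‖(m : ℝ)⁻¹ • ∑ i, Φ (p i) - (m : ℝ)⁻¹ • ∑ i, Φ (q i)‖ ≤ ε / 2 := by
      intro p q w hp hq hpw hqw
      obtain ⟨r, hr1, hr2⟩ := equilateral hX (insert w (Finset.univ.image p ∪ Finset.univ.image q))
        (Finset.insert_nonempty _ _) (by
          have : ∀ x ∈ insert w (Finset.univ.image p ∪ Finset.univ.image q), dist x w ≤ 1 := by
            intro x hx
            rw [Finset.mem_insert, Finset.mem_union] at hx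
            rcases hx with rfl | hx | hx
            · simp
            · obtain ⟨i, -, rfl⟩ := Finset.mem_image.mp hx
              exact (hpw i).le
            · obtain ⟨i, -, rfl⟩ := Finset.mem_image.mp hx
              exact (hqw i).le
          intro x hx y hy
          have h1 := this x hx
          have h2 := this y hy
          have h3 := dist_triangle_right x y w
          linarith)
      have hrp : ∀ n i, dist (r n) (p i) = 1 := fun n i => hr1 n _ (Finset.mem_insert_of_mem
        (Finset.mem_union_left _ (Finset.mem_image_of_mem _ (Finset.mem_univ _))))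
      have hrq : ∀ n i, dist (r n) (q i) = 1 := fun n i => hr1 n _ (Finset.mem_insert_of_mem
        (Finset.mem_union_right _ (Finset.mem_image_of_mem _ (Finset.mem_univ _))))
      have hgen : ∀ p : Fin m → X, (∀ i j, i ≠ j → dist (p i) (p j) = 1) →
          (∀ n i, dist (r n) (p i) = 1) →
          ∃ T : E ≃ᵃⁱ[ℝ] E, ∀ (i : Fin m) (b : Bool),
            ‖T (if b then Φ (r i) else Φ (p i)) - Φ (c (code (i, b)))‖ ≤ 0 := by
        intro p hp hrp
        obtain ⟨T, hT⟩ := hmove (ι := Fin m × Bool) (fun i => if i.2 then r i.1 else p i.1)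
          (fun i => c (code (i.1, i.2))) (by
            rintro ⟨i, b⟩ ⟨j, b'⟩ hij
            cases b <;> cases b'
            · simp only [Bool.false_eq_true, if_false]
              exact hp i j (fun e => hij (by rw [e]))
            · simp only [Bool.false_eq_true, if_false, if_true]
              rw [dist_comm]
              exact hrp j i
            · simp only [Bool.false_eq_true, if_false, if_true]
              exact hrp i j
            · simp only [if_true]
              exact hr2 _ _ (fun e => hij (by rw [Fin.ext e]))) (by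
            rintro ⟨i, b⟩ ⟨j, b'⟩ hij
            refine hc2 _ _ (code_inj fun e => hij ?_)
            simp only [Prod.mk.injEq] at e
            exact Prod.ext (Fin.ext e.1) e.2)
        refine ⟨T, fun i b => ?_⟩
        have := hT (i, b)
        cases b
        · simp only [Bool.false_eq_true, if_false] at this ⊢
          rw [this, sub_self, norm_zero]
        · simp only [if_true] at this ⊢
          rw [this, sub_self, norm_zero]
      have := compare (v := fun n b => Φ (c (code (n, b)))) (ε := 0) (δ := ε / 4) hm hw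
        (fun i => Φ (p i)) (fun i => Φ (q i)) (fun i => Φ (r i)) (hgen p hp hrp) (hgen q hq hrq)
      refine this.trans ?_
      linarith
    refine ⟨(m : ℝ)⁻¹ • ∑ i : Fin m, Φ (c i), ?_, ?_⟩
    · rw [norm_smul, Real.norm_of_nonneg (by positivity), inv_mul_le_iff₀ hm']
      refine (norm_sum_le _ _).trans ?_
      have : ∀ i ∈ (Finset.univ : Finset (Fin m)), ‖Φ (c i)‖ ≤ ‖Φ a‖ + ‖Φ (c 0) - Φ a‖ := fun i _ =>
        hbd _ (hc1 _)
      refine (Finset.sum_le_card_nsmul _ _ _ this).trans ?_
      simp [mul_add]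
    · rintro T ⟨k, hk, rfl⟩
      obtain ⟨r, hr1, hr2⟩ := equilateral hX {a, k a} (Finset.insert_nonempty _ _) (by
        intro x hx y hy
        simp only [Finset.mem_insert, Finset.mem_singleton] at hx hy
        rcases hx with rfl | rfl <;> rcases hy with rfl | rfl
        · simp
        · exact hk
        · rw [dist_comm]
          exact hk
        · simp)
      have h1 := hcmp (fun i => c i) (fun i => r i) a (fun i j hij => hc2 _ _ (fun e => hij (Fin.ext e)))
        (fun i j hij => hr2 _ _ (fun e => hij (Fin.ext e))) (fun i => hc1 _)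
        (fun i => hr1 _ _ (Finset.mem_insert_self _ _))
      have h2 := hcmp (fun i => k (c i)) (fun i => r i) (k a)
        (fun i j hij => by rw [k.dist_eq]; exact hc2 _ _ (fun e => hij (Fin.ext e)))
        (fun i j hij => hr2 _ _ (fun e => hij (Fin.ext e)))
        (fun i => by rw [k.dist_eq]; exact hc1 _)
        (fun i => hr1 _ _ (Finset.mem_insert_of_mem (Finset.mem_singleton_self _)))
      rw [aff_sum _ hm]
      simp only [hΦ]
      have e : (m : ℝ)⁻¹ • ∑ i : Fin m, Φ (k (c i)) - (m : ℝ)⁻¹ • ∑ i : Fin m, Φ (c i) =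
          ((m : ℝ)⁻¹ • ∑ i : Fin m, Φ (k (c i)) - (m : ℝ)⁻¹ • ∑ i : Fin m, Φ (r i)) -
          ((m : ℝ)⁻¹ • ∑ i : Fin m, Φ (c i) - (m : ℝ)⁻¹ • ∑ i : Fin m, Φ (r i)) := by abel
      rw [e]
      refine (norm_sub_le _ _).trans ?_
      linarith)
  -- the fixator of `z` contains all elements
  refine ⟨z, ?_⟩
  have hind : ∀ n : ℕ, ∀ g : X ≃ᵢ X, dist a (g a) ≤ 2 * 2 ^ n → α g z = z := by
    intro n
    induction n with
    | zero =>
      intro g hg
      exact hz _ ⟨g, by simpa using hg, rfl⟩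
    | succ n ih =>
      intro g hg
      obtain ⟨q, hq⟩ := hX.rat a (g a)
      obtain ⟨w, hw⟩ := hX.ext' (ι := Bool) (fun b => if b then a else g a)
        (fun _ => dist a (g a) / 2) (fun _ => ⟨q / 2, by rw [hq]; push_cast; rfl⟩)
        (fun i j => by simp) (by
          intro i j
          have h0 : 0 ≤ dist a (g a) := dist_nonneg
          cases i <;> cases j <;> simp [dist_comm (g a) a, h0])
      have h1 := hw true
      have h2 := hw false
      simp only [if_true, Bool.false_eq_true, if_false] at h1 h2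
      obtain ⟨h, hh⟩ := hX.trans a w
      have h3 : α h z = z := ih h (by
        rw [hh, dist_comm, h1]
        rw [pow_succ] at hg
        linarith)
      have h4 : α (h⁻¹ * g) z = z := ih _ (by
        have : dist a ((h⁻¹ * g) a) = dist (h a) (g a) := by
          rw [← h.dist_eq a, IsometryEquiv.mul_apply]
          congr 1
          exact IsometryEquiv.apply_inv_self _ _
        rw [this, hh, h2]
        rw [pow_succ] at hg
        linarith)
      have h5 : α g z = α h (α (h⁻¹ * g) z) := by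
        rw [← aff_mul, ← map_mul]
        congr 2
        group
      rw [h5, h4, h3]
  intro g
  obtain ⟨n, hn⟩ := pow_unbounded_of_one_lt (dist a (g a)) (one_lt_two : (1 : ℝ) < 2)
  refine hind n g ?_
  have : (0 : ℝ) ≤ 2 ^ n := by positivity
  linarith

end Pool.Agent.Q91.QU
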