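import Pool.Agent.Q91.QUExist

/-!
# The isometry group of the rational Urysohn space as a Polish group
-/

set_option autoImplicit false

open Set Filter Topology

namespace Pool.Agent.Q91.QU

/-- the isometry group -/
abbrev GG : Type := QUr ≃ᵢ QUr

/-- coordinates of an isometry -/
noncomputable def enc (g : GG) : (ℕ → ℕ) × (ℕ → ℕ) := (fun n => (g ⟨n⟩).idx, fun n => (g⁻¹ ⟨n⟩).idx)

/-- the topology of pointwise convergence -/
noncomputable instance topGG : TopologicalSpace GG := TopologicalSpace.induced enc inferInstance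

theorem enc_inj : Function.Injective enc := by
  intro g h e
  ext x
  have := congrFun (congrArg Prod.fst e) x.idx
  exact QUr.ext_idx this

theorem isEmbedding_enc : IsEmbedding enc := ⟨⟨rfl⟩, enc_inj⟩

theorem continuous_enc : Continuous enc := isEmbedding_enc.continuous

theorem continuous_eval (x : QUr) : Continuous (fun g : GG => (g x).idx) :=
  (continuous_apply x.idx).comp (continuous_fst.comp continuous_enc)

theorem continuous_eval_inv (x : QUr) : Continuous (fun g : GG => (g⁻¹ x).idx) :=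
  (continuous_apply x.idx).comp (continuous_snd.comp continuous_enc)

/-- composition of locally constant evaluations -/
theorem continuous_comp_eval {Y : Type*} [TopologicalSpace Y] (a : Y → ℕ → ℕ) (b : Y → ℕ)
    (ha : ∀ n, Continuous fun y => a y n) (hb : Continuous b) : Continuous fun y => a y (b y) := by
  rw [continuous_discrete_rng]
  intro k
  have : (fun y => a y (b y)) ⁻¹' {k} = ⋃ m : ℕ, (b ⁻¹' {m}) ∩ ((fun y => a y m) ⁻¹' {k}) := by
    ext y
    simp
  rw [this]
  exact isOpen_iUnion fun m => ((isOpen_discrete _).preimage hb).inter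
    ((isOpen_discrete _).preimage (ha m))

instance : IsTopologicalGroup GG where
  continuous_mul := by
    rw [isEmbedding_enc.continuous_iff]
    refine Continuous.prodMk (continuous_pi fun n => ?_) (continuous_pi fun n => ?_)
    · exact continuous_comp_eval (fun (p : GG × GG) m => (p.1 ⟨m⟩).idx) (fun p => (p.2 ⟨n⟩).idx)
        (fun m => (continuous_eval ⟨m⟩).comp continuous_fst)
        ((continuous_eval ⟨n⟩).comp continuous_snd)
    · have e : (fun p : GG × GG => ((p.1 * p.2)⁻¹ ⟨n⟩).idx) =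
          fun p => (p.2⁻¹ ⟨(p.1⁻¹ ⟨n⟩).idx⟩).idx := by
        funext p
        rw [mul_inv_rev]
        rfl
      show Continuous (fun p : GG × GG => ((p.1 * p.2)⁻¹ ⟨n⟩).idx)
      rw [e]
      exact continuous_comp_eval (fun (p : GG × GG) m => (p.2⁻¹ ⟨m⟩).idx)
        (fun p => (p.1⁻¹ ⟨n⟩).idx)
        (fun m => (continuous_eval_inv ⟨m⟩).comp continuous_snd)
        ((continuous_eval_inv ⟨n⟩).comp continuous_fst)
  continuous_inv := by
    rw [isEmbedding_enc.continuous_iff]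
    refine Continuous.prodMk (continuous_pi fun n => ?_) (continuous_pi fun n => ?_)
    · exact continuous_eval_inv ⟨n⟩
    · show Continuous fun g : GG => (g⁻¹⁻¹ ⟨n⟩).idx
      simp only [inv_inv]
      exact continuous_eval ⟨n⟩

/-- pointwise stabiliser of a finite set -/
def stab (S : Finset QUr) : Subgroup GG where
  carrier := {g | ∀ x ∈ S, g x = x}
  one_mem' := fun x _ => rfl
  mul_mem' := by
    intro g h hg hh x hx
    rw [IsometryEquiv.mul_apply, hh x hx, hg x hx]
  inv_mem' := by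
    intro g hg x hx
    calc g⁻¹ x = g⁻¹ (g x) := by rw [hg x hx]
      _ = x := IsometryEquiv.inv_apply_self _ _

theorem isOpen_stab (S : Finset QUr) : IsOpen (stab S : Set GG) := by
  have : (stab S : Set GG) = ⋂ x ∈ S, (fun g : GG => (g x).idx) ⁻¹' {x.idx} := by
    ext g
    simp only [mem_iInter, mem_preimage, mem_singleton_iff]
    constructor
    · intro h x hx
      rw [h x hx]
    · intro h x hx
      exact QUr.ext_idx (h x hx)
  rw [this]
  exact isOpen_biInter_finset fun x _ => (isOpen_discrete _).preimage (continuous_eval x)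

theorem nhds_basis (g : GG) (U : Set GG) (hU : U ∈ 𝓝 g) :
    ∃ S : Finset QUr, ∀ h : GG, (∀ x ∈ S, h x = g x) → h ∈ U := by
  classical
  rw [isEmbedding_enc.nhds_eq_comap, mem_comap] at hU
  obtain ⟨t, ht, htU⟩ := hU
  rw [nhds_prod_eq, mem_prod_iff] at ht
  obtain ⟨A, hA, B, hB, hAB⟩ := ht
  rw [nhds_pi, Filter.mem_pi] at hA hB
  obtain ⟨I, hI, tA, htA, hIA⟩ := hA
  obtain ⟨J, hJ, tB, htB, hJB⟩ := hB
  refine ⟨hI.toFinset.image (fun n => ⟨n⟩) ∪ hJ.toFinset.image (fun n => g⁻¹ ⟨n⟩), fun h hh => ?_⟩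
  refine htU (hAB ⟨hIA fun n hn => ?_, hJB fun n hn => ?_⟩)
  · have h1 : h ⟨n⟩ = g ⟨n⟩ := hh _ (Finset.mem_union_left _ (Finset.mem_image.mpr
      ⟨n, hI.mem_toFinset.mpr hn, rfl⟩))
    show (h ⟨n⟩).idx ∈ tA n
    rw [h1]
    exact mem_of_mem_nhds (htA n)
  · have h1 : h (g⁻¹ ⟨n⟩) = g (g⁻¹ ⟨n⟩) := hh _ (Finset.mem_union_right _ (Finset.mem_image.mpr
      ⟨n, hJ.mem_toFinset.mpr hn, rfl⟩))
    have h2 : g (g⁻¹ ⟨n⟩) = (⟨n⟩ : QUr) := IsometryEquiv.apply_inv_self _ _
    rw [h2] at h1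
    have h3 : h⁻¹ ⟨n⟩ = g⁻¹ ⟨n⟩ := by
      rw [← h1]
      rw [show h⁻¹ (h (g⁻¹ ⟨n⟩)) = g⁻¹ ⟨n⟩ from IsometryEquiv.inv_apply_self _ _, h1]
    show (h⁻¹ ⟨n⟩).idx ∈ tB n
    rw [h3]
    exact mem_of_mem_nhds (htB n)

instance : NonarchimedeanGroup GG where
  is_nonarchimedean := by
    intro U hU
    obtain ⟨S, hS⟩ := nhds_basis 1 U hU
    exact ⟨⟨stab S, isOpen_stab S⟩, fun h hh => hS h hh⟩

instance : PolishSpace GG := by
  have hcl : IsClosedEmbedding enc := by
    refine ⟨isEmbedding_enc, ?_⟩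
    have hr : range enc = {p : (ℕ → ℕ) × (ℕ → ℕ) | (∀ n, p.1 (p.2 n) = n) ∧ (∀ n, p.2 (p.1 n) = n) ∧
        ∀ m n, D (p.1 m) (p.1 n) = D m n} := by
      ext p
      constructor
      · rintro ⟨g, rfl⟩
        refine ⟨fun n => ?_, fun n => ?_, fun m n => ?_⟩
        · exact congrArg QUr.idx (IsometryEquiv.apply_inv_self g ⟨n⟩)
        · exact congrArg QUr.idx (IsometryEquiv.inv_apply_self g ⟨n⟩)
        · have := g.dist_eq ⟨m⟩ ⟨n⟩
          rw [dist_def, dist_def] at this
          exact_mod_cast this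
      · rintro ⟨h1, h2, h3⟩
        let g : GG := ⟨⟨fun x => ⟨p.1 x.idx⟩, fun x => ⟨p.2 x.idx⟩, fun x => QUr.ext_idx (h2 _),
          fun x => QUr.ext_idx (h1 _)⟩, Isometry.of_dist_eq fun x y => by
            rw [dist_def, dist_def]
            exact_mod_cast h3 x.idx y.idx⟩
        refine ⟨g, ?_⟩
        refine Prod.ext (funext fun n => rfl) (funext fun n => ?_)
        have e : g⁻¹ ⟨n⟩ = (⟨p.2 n⟩ : QUr) := by
          have e1 : g ⟨p.2 n⟩ = ⟨n⟩ := QUr.ext_idx (h1 n)
          rw [← e1]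
          exact IsometryEquiv.inv_apply_self _ _
        exact congrArg QUr.idx e
    rw [hr]
    have c1 : ∀ n, Continuous fun p : (ℕ → ℕ) × (ℕ → ℕ) => p.1 n := fun n =>
      (continuous_apply n).comp continuous_fst
    have c2 : ∀ n, Continuous fun p : (ℕ → ℕ) × (ℕ → ℕ) => p.2 n := fun n =>
      (continuous_apply n).comp continuous_snd
    have e : {p : (ℕ → ℕ) × (ℕ → ℕ) | (∀ n, p.1 (p.2 n) = n) ∧ (∀ n, p.2 (p.1 n) = n) ∧
        ∀ m n, D (p.1 m) (p.1 n) = D m n} =
        (⋂ n, (fun p : (ℕ → ℕ) × (ℕ → ℕ) => p.1 (p.2 n)) ⁻¹' {n}) ∩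
        ((⋂ n, (fun p : (ℕ → ℕ) × (ℕ → ℕ) => p.2 (p.1 n)) ⁻¹' {n}) ∩
        ⋂ m, ⋂ n, (fun p : (ℕ → ℕ) × (ℕ → ℕ) => (p.1 m, p.1 n)) ⁻¹'
          {q : ℕ × ℕ | D q.1 q.2 = D m n}) := by
      ext p
      simp
    rw [e]
    refine (isClosed_iInter fun n => ?_).inter ((isClosed_iInter fun n => ?_).inter
      (isClosed_iInter fun m => isClosed_iInter fun n => ?_))
    · exact (isClosed_discrete _).preimage (continuous_comp_eval
        (fun (p : (ℕ → ℕ) × (ℕ → ℕ)) m => p.1 m) (fun p => p.2 n)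
        c1 (c2 n))
    · exact (isClosed_discrete _).preimage (continuous_comp_eval
        (fun (p : (ℕ → ℕ) × (ℕ → ℕ)) m => p.2 m) (fun p => p.1 n)
        c2 (c1 n))
    · exact (isClosed_discrete _).preimage ((c1 m).prodMk (c1 n))
  exact hcl.polishSpace

end Pool.Agent.Q91.QU
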