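import Mathlib

/-!
# Fixed points of families of affine isometries of a reflexive space
-/

set_option autoImplicit false

open Set Filter Topology

namespace Pool.Agent.Q91.Refl

variable {E : Type*} [NormedAddCommGroup E] [NormedSpace ℝ E]

/-- In a reflexive space a bounded sequence has a point which lies in every closed convex set that
contains almost all terms of the sequence. -/
theorem exists_cluster (hr : Function.Surjective (NormedSpace.inclusionInDoubleDual ℝ E))
    (x : ℕ → E) (R : ℝ) (hx : ∀ n, ‖x n‖ ≤ R) :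
    ∃ y : E, ∀ C : Set E, Convex ℝ C → IsClosed C → (∀ᶠ n in atTop, x n ∈ C) → y ∈ C := by
  have hc := WeakDual.isCompact_closedBall (𝕜 := ℝ) (E := StrongDual ℝ E) 0 R
  let J : ℕ → WeakDual ℝ (StrongDual ℝ E) := fun n =>
    StrongDual.toWeakDual (NormedSpace.inclusionInDoubleDual ℝ E (x n))
  have hJ : ∀ n, J n ∈ WeakDual.toStrongDual ⁻¹' Metric.closedBall (0 : StrongDual ℝ (StrongDual ℝ E)) R := by
    intro n
    have h0 : NormedSpace.inclusionInDoubleDual ℝ E (x n) ∈
        Metric.closedBall (0 : StrongDual ℝ (StrongDual ℝ E)) R :=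
      by
        rw [Metric.mem_closedBall]
        exact (dist_zero_right (NormedSpace.inclusionInDoubleDual ℝ E (x n))).le.trans
          ((NormedSpace.double_dual_bound ℝ E (x n)).trans (hx n))
    exact h0
  obtain ⟨φ, -, hφ⟩ := hc.exists_mapClusterPt (f := atTop) (u := J) (by
    rw [le_principal_iff, mem_map]
    exact univ_mem' hJ)
  obtain ⟨y, hy⟩ := hr (WeakDual.toStrongDual φ)
  refine ⟨y, fun C hC hcl hev => ?_⟩
  by_contra hyC
  obtain ⟨f, u, h1, h2⟩ := geometric_hahn_banach_point_closed hC hcl hyC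
  have h3 : MapClusterPt (φ f) atTop (fun n => f (x n)) :=
    hφ.continuousAt_comp (WeakDual.eval_continuous f).continuousAt
  have h4 : φ f = f y := by
    have := congrArg (fun g => g f) hy
    simpa using this.symm
  have h5 : ∃ᶠ n in atTop, f (x n) < u := by
    rw [h4] at h3
    exact h3.frequently (Iio_mem_nhds h1)
  obtain ⟨n, h6, h7⟩ := (h5.and_eventually hev).exists
  exact absurd (h2 _ h7) (not_lt.mpr h6.le)

/-- Almost fixed points in a ball give fixed points. -/
theorem fixed_of_almost (hr : Function.Surjective (NormedSpace.inclusionInDoubleDual ℝ E))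
    (H : Set (E ≃ᵃⁱ[ℝ] E)) (R : ℝ)
    (h : ∀ ε : ℝ, 0 < ε → ∃ y : E, ‖y‖ ≤ R ∧ ∀ T ∈ H, ‖T y - y‖ ≤ ε) :
    ∃ y : E, ∀ T ∈ H, T y = y := by
  have h1 : ∀ n : ℕ, ∃ y : E, ‖y‖ ≤ R ∧ ∀ T ∈ H, ‖T y - y‖ ≤ 1 / ((n : ℝ) + 1) := fun n =>
    h _ Nat.one_div_pos_of_nat
  choose x hx1 hx2 using h1
  obtain ⟨y, hy⟩ := exists_cluster hr x R hx1
  refine ⟨y, fun T hT => ?_⟩
  have key : ∀ ε : ℝ, 0 < ε → ‖T y - y‖ ≤ ε := by
    intro ε hε
    have hcont : Continuous (fun z : E => T z - z) := T.continuous.sub continuous_id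
    refine hy {z : E | ‖T z - z‖ ≤ ε} ?_ (isClosed_le hcont.norm continuous_const) ?_
    · intro a ha b hb s t hs ht hst
      have e : T (s • a + t • b) - (s • a + t • b) = s • (T a - a) + t • (T b - b) := by
        have : T (s • a + t • b) = s • T a + t • T b := by
          have := Convex.combo_affine_apply (f := (T.toAffineEquiv : E →ᵃ[ℝ] E)) (x := a) (y := b) hst
          simpa using this
        rw [this]
        module
      show ‖T (s • a + t • b) - (s • a + t • b)‖ ≤ ε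
      rw [e]
      refine (norm_add_le _ _).trans ?_
      rw [norm_smul, norm_smul, Real.norm_of_nonneg hs, Real.norm_of_nonneg ht]
      have ha' : ‖T a - a‖ ≤ ε := ha
      have hb' : ‖T b - b‖ ≤ ε := hb
      calc s * ‖T a - a‖ + t * ‖T b - b‖ ≤ s * ε + t * ε := by gcongr
        _ = ε := by rw [← add_mul, hst, one_mul]
    · have := (tendsto_one_div_add_atTop_nhds_zero_nat (𝕜 := ℝ)).eventually (Iio_mem_nhds hε)
      filter_upwards [this] with n hn
      exact (hx2 n T hT).trans (le_of_lt hn)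
  have h0 : ‖T y - y‖ = 0 := le_antisymm (le_of_forall_pos_le_add (by simpa using key)) (norm_nonneg _)
  exact sub_eq_zero.mp (norm_eq_zero.mp h0)

/-- Averages of a sequence which is approximately symmetric with respect to permutations and
to sign changes are small. -/
theorem average_small (hr : Function.Surjective (NormedSpace.inclusionInDoubleDual ℝ E))
    (d : ℕ → E) (R ε : ℝ) (hd : ∀ n, ‖d n‖ ≤ R)
    (h1 : ∀ n : ℕ, ∀ k : Fin n, ∃ T : E ≃ₗᵢ[ℝ] E, ∀ i : Fin n, ‖T (d i) - d ↑(i + k)‖ ≤ ε)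
    (h2 : ∀ n m : ℕ, ∃ T : E ≃ₗᵢ[ℝ] E, ∀ i < m, if i < n then ‖T (d i) - d i‖ ≤ ε
      else ‖T (d i) + d i‖ ≤ ε)
    (δ : ℝ) (hδ : 0 < δ) :
    ∃ m : ℕ, ∀ n ≥ m, ‖∑ i : Fin n, d i‖ ≤ n * (2 * ε + δ) := by
  classical
  obtain ⟨y, hy⟩ := exists_cluster hr d R hd
  have hmem : ∀ m : ℕ, y ∈ closure (convexHull ℝ (d '' Ici m)) := by
    intro m
    refine hy _ (convex_convexHull ℝ _).closure isClosed_closure ?_
    filter_upwards [eventually_ge_atTop m] with n hn
    exact subset_closure (subset_convexHull ℝ _ ⟨n, hn, rfl⟩)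
  -- finite support
  have hfin : ∀ m : ℕ, ∀ u ∈ convexHull ℝ (d '' Ici m), ∃ N : ℕ, u ∈ convexHull ℝ (d '' Ico m N) := by
    intro m u hu
    rw [convexHull_eq_union_convexHull_finite_subsets] at hu
    simp only [mem_iUnion] at hu
    obtain ⟨t, ht, hu⟩ := hu
    have : ∃ N : ℕ, (t : Set E) ⊆ d '' Ico m N := by
      have h3 : ∀ a : t, ∃ k : ℕ, m ≤ k ∧ d k = a := fun a => by
        obtain ⟨k, hk, hk2⟩ := ht a.2
        exact ⟨k, hk, hk2⟩
      choose k hk1 hk2 using h3
      refine ⟨(Finset.univ.sup k) + 1, fun a ha => ⟨k ⟨a, ha⟩, ⟨hk1 _, ?_⟩, hk2 ⟨a, ha⟩⟩⟩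
      exact Nat.lt_succ_of_le (Finset.le_sup (f := k) (Finset.mem_univ _))
    obtain ⟨N, hN⟩ := this
    exact ⟨N, convexHull_mono hN hu⟩
  obtain ⟨u, hu, huy⟩ := Metric.mem_closure_iff.mp (hmem 0) (δ / 2) (by positivity)
  obtain ⟨N, hN⟩ := hfin 0 u hu
  obtain ⟨v, hv, hvy⟩ := Metric.mem_closure_iff.mp (hmem N) (δ / 2) (by positivity)
  obtain ⟨M, hM⟩ := hfin N v hv
  have huv : ‖u - v‖ ≤ δ := by
    rw [← dist_eq_norm]
    have := dist_triangle_left u v y
    linarith
  obtain ⟨T, hT⟩ := h2 N (max N M)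
  have hconv : ∀ (L : E →ₗ[ℝ] E) (c : E) (r : ℝ), Convex ℝ {z : E | ‖L z - c‖ ≤ r} := by
    intro L c r a ha b hb s t hs ht hst
    have e : L (s • a + t • b) - c = s • (L a - c) + t • (L b - c) := by
      have h3 : c = s • c + t • c := by rw [← add_smul, hst, one_smul]
      rw [map_add, map_smul, map_smul]
      conv_lhs => rw [h3]
      module
    show ‖L (s • a + t • b) - c‖ ≤ r
    rw [e]
    refine (norm_add_le _ _).trans ?_
    rw [norm_smul, norm_smul, Real.norm_of_nonneg hs, Real.norm_of_nonneg ht]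
    have ha' : ‖L a - c‖ ≤ r := ha
    have hb' : ‖L b - c‖ ≤ r := hb
    calc s * ‖L a - c‖ + t * ‖L b - c‖ ≤ s * r + t * r := by gcongr
      _ = r := by rw [← add_mul, hst, one_mul]
  have hTu : ‖T u - u‖ ≤ ε := by
    have hc := hconv ((T.toLinearEquiv : E →ₗ[ℝ] E) - LinearMap.id) 0 ε
    have := convexHull_min (s := d '' Ico 0 N) ?_ hc hN
    · simpa using this
    · rintro _ ⟨i, hi, rfl⟩
      have h3 := hT i (lt_of_lt_of_le hi.2 (le_max_left _ _))
      rw [if_pos hi.2] at h3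
      simpa using h3
  have hTv : ‖T v + v‖ ≤ ε := by
    have hc := hconv ((T.toLinearEquiv : E →ₗ[ℝ] E) + LinearMap.id) 0 ε
    have := convexHull_min (s := d '' Ico N M) ?_ hc hM
    · simpa using this
    · rintro _ ⟨i, hi, rfl⟩
      have h3 := hT i (lt_of_lt_of_le hi.2 (le_max_right _ _))
      rw [if_neg (not_lt.mpr hi.1)] at h3
      simpa using h3
  have hu2 : ‖u‖ ≤ δ + ε := by
    have h3 : ‖T u - T v‖ ≤ δ := by
      rw [← map_sub, T.norm_map]
      exact huv
    have h4 : (2 : ℝ) • u = (u - v) + ((T u - T v) - (T u - u) + (T v + v)) := by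
      rw [two_smul]
      abel
    have h5 : ‖(2 : ℝ) • u‖ ≤ 2 * (δ + ε) := by
      rw [h4]
      have a1 := norm_add_le (u - v) ((T u - T v) - (T u - u) + (T v + v))
      have a2 := norm_add_le ((T u - T v) - (T u - u)) (T v + v)
      have a3 := norm_sub_le (T u - T v) (T u - u)
      linarith
    rw [norm_smul, Real.norm_of_nonneg (by norm_num : (0 : ℝ) ≤ 2)] at h5
    linarith
  refine ⟨N, fun n hn => ?_⟩
  choose S hS using h1 n
  have hsum : ∀ i : Fin n, ∑ k : Fin n, d ↑(i + k) = ∑ k : Fin n, d k := by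
    intro i
    have : NeZero n := ⟨by have := i.2; omega⟩
    exact Fintype.sum_equiv (Equiv.addLeft i) _ _ (fun k => rfl)
  have hmain : ‖(∑ k : Fin n, S k u) - ∑ k : Fin n, d k‖ ≤ n * ε := by
    have hc := hconv (∑ k : Fin n, ((S k).toLinearEquiv : E →ₗ[ℝ] E)) (∑ k : Fin n, d k) (n * ε)
    have := convexHull_min (s := d '' Ico 0 N) ?_ hc hN
    · simpa [LinearMap.sum_apply] using this
    · rintro _ ⟨i, hi, rfl⟩
      have hin : i < n := lt_of_lt_of_le hi.2 hn
      have h3 := hsum ⟨i, hin⟩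
      have h4 : ‖(∑ k : Fin n, S k (d i)) - ∑ k : Fin n, d k‖ ≤ n * ε := by
        rw [← h3, ← Finset.sum_sub_distrib]
        refine (norm_sum_le _ _).trans ?_
        have : ∀ k ∈ (Finset.univ : Finset (Fin n)),
            ‖S k (d i) - d ↑((⟨i, hin⟩ : Fin n) + k)‖ ≤ ε := fun k _ => hS k ⟨i, hin⟩
        refine (Finset.sum_le_card_nsmul _ _ _ this).trans ?_
        simp
      simpa [LinearMap.sum_apply] using h4
  have h6 : ‖∑ k : Fin n, S k u‖ ≤ n * (δ + ε) := by
    refine (norm_sum_le _ _).trans ?_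
    have : ∀ k ∈ (Finset.univ : Finset (Fin n)), ‖S k u‖ ≤ δ + ε := fun k _ => by
      rw [(S k).norm_map]
      exact hu2
    refine (Finset.sum_le_card_nsmul _ _ _ this).trans ?_
    simp [mul_add]
  have h7 := norm_sub_le (∑ k : Fin n, S k u) ((∑ k : Fin n, S k u) - ∑ k : Fin n, d k)
  rw [sub_sub_cancel] at h7
  calc ‖∑ i : Fin n, d i‖ ≤ n * (δ + ε) + n * ε := by linarith
    _ = n * (2 * ε + δ) := by ring

end Pool.Agent.Q91.Refl
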