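import Pool.Agent.Q91.Refl

/-!
# Symmetric families of vectors
-/

set_option autoImplicit false

open Set Filter Topology

namespace Pool.Agent.Q91.Refl

variable {E : Type*} [NormedAddCommGroup E] [NormedSpace ℝ E]

theorem aff_sub (T : E ≃ᵃⁱ[ℝ] E) (a b : E) : T a - T b = T.linearIsometryEquiv (a - b) := by
  have := T.map_vsub a b
  simpa using this.symm

theorem aff_sum (T : E ≃ᵃⁱ[ℝ] E) {n : ℕ} (hn : 0 < n) (a : Fin n → E) :
    T ((n : ℝ)⁻¹ • ∑ i, a i) = (n : ℝ)⁻¹ • ∑ i, T (a i) := by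
  have hn' : (n : ℝ) ≠ 0 := by positivity
  have h1 : ∀ z : E, T z = T.linearIsometryEquiv z + T 0 := fun z => by
    have := aff_sub T z 0
    rw [sub_zero] at this
    rw [← this, sub_add_cancel]
  have h2 : ∑ i, T (a i) = T.linearIsometryEquiv (∑ i, a i) + (n : ℝ) • T 0 := by
    rw [map_sum]
    have : ∀ i ∈ (Finset.univ : Finset (Fin n)), T (a i) = T.linearIsometryEquiv (a i) + T 0 :=
      fun i _ => h1 _
    rw [Finset.sum_congr rfl this, Finset.sum_add_distrib]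
    simp [Nat.cast_smul_eq_nsmul]
  rw [h2, h1, smul_add, smul_smul, inv_mul_cancel₀ hn', one_smul, map_smul]

/-- A double sequence of vectors is approximately symmetric. -/
def Sym (ε : ℝ) (v : ℕ → Bool → E) : Prop :=
  ∀ (ι : Type) [Fintype ι] (φ ψ : ι → ℕ × Bool), Function.Injective φ → Function.Injective ψ →
    ∃ T : E ≃ᵃⁱ[ℝ] E, ∀ i, ‖T (v (φ i).1 (φ i).2) - v (ψ i).1 (ψ i).2‖ ≤ ε

theorem sym_average (hr : Function.Surjective (NormedSpace.inclusionInDoubleDual ℝ E))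
    {ε : ℝ} {v : ℕ → Bool → E} (hv : Sym ε v) (δ : ℝ) (hδ : 0 < δ) :
    ∃ m : ℕ, 0 < m ∧ ∀ w : Fin m → Bool → E,
      (∃ T : E ≃ᵃⁱ[ℝ] E, ∀ i b, ‖T (w i b) - v i b‖ ≤ ε) →
      ‖∑ i, (w i false - w i true)‖ ≤ m * (6 * ε + δ) := by
  classical
  have hdiff : ∀ (T : E ≃ᵃⁱ[ℝ] E) (a b c d : E), ‖T a - c‖ ≤ ε → ‖T b - d‖ ≤ ε →
      ‖T.linearIsometryEquiv (a - b) - (c - d)‖ ≤ 2 * ε := by
    intro T a b c d h1 h2
    rw [← aff_sub]
    have e : T a - T b - (c - d) = (T a - c) - (T b - d) := by abel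
    rw [e]
    have := norm_sub_le (T a - c) (T b - d)
    linarith
  let d : ℕ → E := fun i => v i false - v i true
  obtain ⟨m, hm⟩ := average_small hr d (‖d 0‖ + 2 * ε) (2 * ε) (by
    intro n
    obtain ⟨T, hT⟩ := hv Bool (fun b => (0, b)) (fun b => (n, b)) (fun a b h => by simpa using h)
      (fun a b h => by simpa using h)
    have h1 := hdiff T _ _ _ _ (hT false) (hT true)
    have h2 : ‖d n‖ ≤ ‖T.linearIsometryEquiv (d 0)‖ + ‖T.linearIsometryEquiv (d 0) - d n‖ := by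
      have := norm_sub_le (T.linearIsometryEquiv (d 0)) (T.linearIsometryEquiv (d 0) - d n)
      rwa [sub_sub_cancel] at this
    rw [LinearIsometryEquiv.norm_map] at h2
    exact h2.trans (add_le_add le_rfl h1)) (by
    intro n k
    have : NeZero n := ⟨by have := k.2; omega⟩
    obtain ⟨T, hT⟩ := hv (Fin n × Bool) (fun i => ((i.1 : ℕ), i.2)) (fun i => (((i.1 + k : Fin n) : ℕ), i.2))
      (by
        rintro ⟨i, b⟩ ⟨j, c⟩ h
        simp only [Prod.mk.injEq] at h
        exact Prod.ext (Fin.ext h.1) h.2)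
      (by
        rintro ⟨i, b⟩ ⟨j, c⟩ h
        simp only [Prod.mk.injEq] at h
        exact Prod.ext (add_right_cancel (Fin.ext h.1)) h.2)
    exact ⟨T.linearIsometryEquiv, fun i => hdiff T _ _ _ _ (hT (i, false)) (hT (i, true))⟩) (by
    intro n m
    obtain ⟨T, hT⟩ := hv (Fin m × Bool) (fun i => ((i.1 : ℕ), i.2))
      (fun i => ((i.1 : ℕ), if (i.1 : ℕ) < n then i.2 else !i.2))
      (by
        rintro ⟨i, b⟩ ⟨j, c⟩ h
        simp only [Prod.mk.injEq] at h
        exact Prod.ext (Fin.ext h.1) h.2)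
      (by
        rintro ⟨i, b⟩ ⟨j, c⟩ h
        simp only [Prod.mk.injEq] at h
        obtain ⟨h1, h2⟩ := h
        obtain rfl : i = j := Fin.ext h1
        split_ifs at h2
        · rw [h2]
        · rw [Bool.not_inj h2])
    refine ⟨T.linearIsometryEquiv, fun i hi => ?_⟩
    split_ifs with hin
    · have h1 := hT (⟨i, hi⟩, false)
      have h2 := hT (⟨i, hi⟩, true)
      simp only [hin, if_true] at h1 h2
      exact hdiff T _ _ _ _ h1 h2
    · have h1 := hT (⟨i, hi⟩, false)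
      have h2 := hT (⟨i, hi⟩, true)
      simp only [hin, if_false] at h1 h2
      have h3 := hdiff T _ _ _ _ h1 h2
      have e : T.linearIsometryEquiv (d i) + d i =
          T.linearIsometryEquiv (v i false - v i true) - (v i (!false) - v i (!true)) := by
        simp only [Bool.not_false, Bool.not_true, d]
        abel
      rw [e]
      exact h3) δ hδ
  refine ⟨m + 1, by omega, fun w => ?_⟩
  rintro ⟨T, hT⟩
  have h1 := hm (m + 1) (by omega)
  have h2 : ‖T.linearIsometryEquiv (∑ i, (w i false - w i true)) - ∑ i : Fin (m + 1), d i‖ ≤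
      ((m + 1 : ℕ) : ℝ) * (2 * ε) := by
    rw [map_sum, ← Finset.sum_sub_distrib]
    refine (norm_sum_le _ _).trans ?_
    have : ∀ i ∈ (Finset.univ : Finset (Fin (m + 1))),
        ‖T.linearIsometryEquiv (w i false - w i true) - d i‖ ≤ 2 * ε :=
      fun i _ => hdiff T _ _ _ _ (hT i false) (hT i true)
    refine (Finset.sum_le_card_nsmul _ _ _ this).trans ?_
    simp
  have h3 := norm_sub_le (T.linearIsometryEquiv (∑ i, (w i false - w i true)))
    (T.linearIsometryEquiv (∑ i, (w i false - w i true)) - ∑ i : Fin (m + 1), d i)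
  have h4 : ‖∑ i, (w i false - w i true)‖ ≤
      ‖∑ i : Fin (m + 1), d i‖ +
      ‖T.linearIsometryEquiv (∑ i, (w i false - w i true)) - ∑ i : Fin (m + 1), d i‖ := by
    rw [← T.linearIsometryEquiv.norm_map (∑ i, (w i false - w i true))]
    have := norm_add_le (∑ i : Fin (m + 1), d i)
      (T.linearIsometryEquiv (∑ i, (w i false - w i true)) - ∑ i : Fin (m + 1), d i)
    rwa [add_sub_cancel] at this
  calc _ ≤ _ := h4
    _ ≤ ((m + 1 : ℕ) : ℝ) * (2 * (2 * ε) + δ) + ((m + 1 : ℕ) : ℝ) * (2 * ε) := add_le_add h1 h2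
    _ = ((m + 1 : ℕ) : ℝ) * (6 * ε + δ) := by ring

/-- Comparison of two averages through a third family. -/
theorem compare {ε δ : ℝ} {v : ℕ → Bool → E} {m : ℕ} (hm : 0 < m)
    (h : ∀ w : Fin m → Bool → E,
      (∃ T : E ≃ᵃⁱ[ℝ] E, ∀ i b, ‖T (w i b) - v i b‖ ≤ ε) →
      ‖∑ i, (w i false - w i true)‖ ≤ m * (6 * ε + δ))
    (p q r : Fin m → E)
    (h1 : ∃ T : E ≃ᵃⁱ[ℝ] E, ∀ (i : Fin m) (b : Bool), ‖T (if b then r i else p i) - v i b‖ ≤ ε)
    (h2 : ∃ T : E ≃ᵃⁱ[ℝ] E, ∀ (i : Fin m) (b : Bool), ‖T (if b then r i else q i) - v i b‖ ≤ ε) :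
    ‖(m : ℝ)⁻¹ • ∑ i, p i - (m : ℝ)⁻¹ • ∑ i, q i‖ ≤ 12 * ε + 2 * δ := by
  have hm' : (0 : ℝ) < m := by exact_mod_cast hm
  have a1 := h (fun i b => if b then r i else p i) h1
  have a2 := h (fun i b => if b then r i else q i) h2
  simp only [Bool.false_eq_true, if_false, if_true] at a1 a2
  rw [Finset.sum_sub_distrib] at a1 a2
  rw [← smul_sub, norm_smul, Real.norm_of_nonneg (by positivity), inv_mul_le_iff₀ hm']
  have e : ∑ i, p i - ∑ i, q i = (∑ i, p i - ∑ i, r i) - (∑ i, q i - ∑ i, r i) := by abel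
  rw [e]
  have := norm_sub_le (∑ i, p i - ∑ i, r i) (∑ i, q i - ∑ i, r i)
  linarith

end Pool.Agent.Q91.Refl
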