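import Mathlib

/-!
# The group `S_3^ℕ` : every topology in which word solution sets are exactly the subbasic closed
sets is the product topology.
-/

set_option autoImplicit false

namespace Pool.Agent.Q91.ZariskiS3

/-- The symmetric group on three letters. -/
abbrev S3 : Type := Equiv.Perm (Fin 3)

/-- The product of countably many copies of `S3`. -/
abbrev P : Type := ℕ → S3

instance : TopologicalSpace S3 := ⊥
instance : DiscreteTopology S3 := ⟨rfl⟩

theorem s3_centerless (a : S3) (h : ∀ b : S3, a * b = b * a) : a = 1 := by
  revert a
  decide

/-- A family of continuous self maps of `P` which is rich enough to contain the twisted commutator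
maps: its preimages of the complement of the identity generate the product topology. -/
theorem generate_eq (F : Set (P → P)) (hF : ∀ f ∈ F, Continuous f)
    (hcomm : ∀ g c : P, (fun x : P => (g * x) * c * (g * x)⁻¹ * c⁻¹) ∈ F) :
    TopologicalSpace.generateFrom {U : Set P | ∃ f ∈ F, U = {x : P | f x ≠ 1}} =
      (Pi.topologicalSpace : TopologicalSpace P) := by
  classical
  have key : ∀ (i : ℕ) (a : S3), @IsClosed P
      (TopologicalSpace.generateFrom {U : Set P | ∃ f ∈ F, U = {x : P | f x ≠ 1}})
      {x : P | x i = a} := by
    intro i a
    letI T : TopologicalSpace P :=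
      TopologicalSpace.generateFrom {U : Set P | ∃ f ∈ F, U = {x : P | f x ≠ 1}}
    have e : {x : P | x i = a} = ⋂ b : S3, {x : P |
        ((Pi.mulSingle i a⁻¹ : P) * x) * (Pi.mulSingle i b : P) *
          ((Pi.mulSingle i a⁻¹ : P) * x)⁻¹ * (Pi.mulSingle i b : P)⁻¹ = 1} := by
      ext x
      simp only [Set.mem_setOf_eq, Set.mem_iInter]
      constructor
      · intro h b
        funext j
        by_cases hj : j = i
        · subst hj
          simp [h]
        · simp [Pi.mulSingle_eq_of_ne hj]
      · intro h
        have h2 : a⁻¹ * x i = 1 := by
          apply s3_centerless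
          intro b
          have := congrFun (h b) i
          simp only [Pi.mul_apply, Pi.mulSingle_eq_same, Pi.inv_apply, Pi.one_apply] at this
          rw [mul_inv_eq_one, mul_inv_eq_iff_eq_mul] at this
          exact this
        exact (inv_mul_eq_one.mp h2).symm
    rw [e]
    refine isClosed_iInter fun b => ?_
    rw [← isOpen_compl_iff]
    refine TopologicalSpace.isOpen_generateFrom_of_mem ⟨_, hcomm (Pi.mulSingle i a⁻¹)
      (Pi.mulSingle i b), ?_⟩
    rfl
  apply le_antisymm
  · -- generated topology is finer than the product topology
    letI T : TopologicalSpace P :=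
      TopologicalSpace.generateFrom {U : Set P | ∃ f ∈ F, U = {x : P | f x ≠ 1}}
    refine le_iInf fun i => ?_
    rw [← continuous_iff_le_induced]
    refine continuous_def.mpr fun s _ => ?_
    rw [← isClosed_compl_iff]
    have : ((fun x : P => x i) ⁻¹' s)ᶜ = ⋃ a ∈ sᶜ, {x : P | x i = a} := by
      ext x
      simp
    rw [this]
    exact Set.Finite.isClosed_biUnion (Set.toFinite _) fun a _ => key i a
  · refine le_generateFrom ?_
    rintro U ⟨f, hf, rfl⟩
    exact isOpen_compl_singleton.preimage (hF f hf)

end Pool.Agent.Q91.ZariskiS3
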